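import Pool.Agent.W660.WvN.Main

/-!
Comparison with the sets of the frozen statement for the algebra of all bounded operators.
-/

set_option autoImplicit false

noncomputable section

open Filter Topology
open scoped ENNReal InnerProductSpace

namespace Pool.Agent.W660.WvN

/-- the von Neumann algebra of all bounded operators -/
def topVN : VonNeumannAlgebra H0 where
  toStarSubalgebra := ⊤
  centralizer_centralizer' := by
    refine Set.eq_univ_of_forall fun x => ?_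
    rw [Set.mem_centralizer_iff]
    intro m hm
    rw [Set.mem_centralizer_iff] at hm
    exact (hm x (Set.mem_univ x)).symm

lemma mem_topVN (x : H0 →L[ℂ] H0) : x ∈ topVN := Set.mem_univ x

/-- the set of the statement -/
def Jset : Set (BK H0) :=
  {S | (∀ i j : ℕ, ∀ b ∈ topVN.commutant, ∀ x : H0,
                (S (lp.single 2 j (b x) : lp (fun _ : ℕ => H0) 2)) i
                  = b ((S (lp.single 2 j x : lp (fun _ : ℕ => H0) 2)) i)) ∧
              ∀ ε : ℝ, 0 < ε → ∃ N : ℕ, ∀ x : lp (fun _ : ℕ => H0) 2, ‖x‖ ≤ 1 →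
                (∑' i : ℕ, ‖(S x) (i + N)‖ ^ 2) ≤ ε ∧
                (∑' i : ℕ, ‖((star S) x) (i + N)‖ ^ 2) ≤ ε}

lemma first_cond (S : BK H0) (i j : ℕ) (b : H0 →L[ℂ] H0) (hb : b ∈ topVN.commutant) (x : H0) :
    (S (lp.single 2 j (b x) : lp (fun _ : ℕ => H0) 2)) i
                  = b ((S (lp.single 2 j x : lp (fun _ : ℕ => H0) 2)) i) := by
  have h1 := (VonNeumannAlgebra.mem_commutant_iff.1 hb) (ent i j S) (mem_topVN _)
  have h2 := congrArg (fun f : H0 →L[ℂ] H0 => f x) h1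
  exact h2

lemma tail_norm (S : BK H0) (N : ℕ) (x : KK H0) :
    (∑' i : ℕ, ‖(S x) (i + N)‖ ^ 2) = ‖((1 - ee N : BK H0) * S) x‖ ^ 2 :=
  (norm_sub_ee N (S x)).symm

lemma tail_le {S : BK H0} {δ : ℝ} {N : ℕ} (hδ : 0 ≤ δ)
    (h : ∀ x : KK H0, ‖x‖ ≤ 1 → (∑' i : ℕ, ‖(S x) (i + N)‖ ^ 2) ≤ δ ^ 2) {n : ℕ} (hn : N ≤ n) :
    ‖(1 - ee n : BK H0) * S‖ ≤ δ := by
  have h1 : ‖(1 - ee N : BK H0) * S‖ ≤ δ := by
    refine ContinuousLinearMap.opNorm_le_of_unit_norm hδ fun x hx => ?_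
    have h2 := h x hx.le
    rw [tail_norm] at h2
    exact (sq_le_sq₀ (norm_nonneg _) hδ).1 h2
  have h2 : (1 - ee n : BK H0) * S = (1 - ee n : BK H0) * ((1 - ee N : BK H0) * S) := by
    rw [← mul_assoc, mul_sub (1 - ee n : BK H0) 1 (ee N), mul_one]
    have h3 : (1 - ee n : BK H0) * ee N = 0 := tail_mul_ee (ePS (E := H0)) hn
    rw [h3, sub_zero]
  rw [h2]
  exact (norm_tail_le (ePS (E := H0)) n _).trans h1

lemma le_tail {S : BK H0} {δ : ℝ} {N : ℕ} (h : ‖(1 - ee N : BK H0) * S‖ ≤ δ) (x : KK H0)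
    (hx : ‖x‖ ≤ 1) : (∑' i : ℕ, ‖(S x) (i + N)‖ ^ 2) ≤ δ ^ 2 := by
  rw [tail_norm]
  have h1 : ‖((1 - ee N : BK H0) * S) x‖ ≤ δ := by
    refine (ContinuousLinearMap.le_opNorm _ x).trans ?_
    calc ‖(1 - ee N : BK H0) * S‖ * ‖x‖ ≤ ‖(1 - ee N : BK H0) * S‖ * 1 := by gcongr
      _ ≤ δ := by rw [mul_one]; exact h
  exact pow_le_pow_left₀ (norm_nonneg _) h1 2

lemma Jset_eq : Jset = (JS (fun N => (ee N : BK H0)) : Set (BK H0)) := by
  ext S
  constructor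
  · rintro ⟨-, h⟩
    constructor
    · intro ε hε
      obtain ⟨N, hN⟩ := h ((ε / 2) ^ 2) (by positivity)
      refine ⟨N, fun n hn => ?_⟩
      have := tail_le (δ := ε / 2) (by positivity) (fun x hx => (hN x hx).1) hn
      exact this.trans_lt (half_lt_self hε)
    · intro ε hε
      obtain ⟨N, hN⟩ := h ((ε / 2) ^ 2) (by positivity)
      refine ⟨N, fun n hn => ?_⟩
      have := tail_le (δ := ε / 2) (by positivity) (fun x hx => (hN x hx).2) hn
      exact this.trans_lt (half_lt_self hε)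
  · rintro ⟨h1, h2⟩
    refine ⟨fun i j b hb x => first_cond S i j b hb x, fun ε hε => ?_⟩
    obtain ⟨N1, hN1⟩ := h1 (Real.sqrt ε) (Real.sqrt_pos.2 hε)
    obtain ⟨N2, hN2⟩ := h2 (Real.sqrt ε) (Real.sqrt_pos.2 hε)
    refine ⟨max N1 N2, fun x hx => ⟨?_, ?_⟩⟩
    · have := le_tail (hN1 _ (le_max_left N1 N2)).le x hx
      rwa [Real.sq_sqrt hε.le] at this
    · have := le_tail (hN2 _ (le_max_right N1 N2)).le x hx
      rwa [Real.sq_sqrt hε.le] at this

lemma mem_M_of {T : BK H0} (hT : T ∈ MS (ePS (E := H0))) :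
    T ∈ {T : BK H0 | ∀ S ∈ Jset, T * S ∈ Jset ∧ S * T ∈ Jset} := by
  rw [Jset_eq]
  exact (MS_iff (ePS (E := H0)) T).1 hT

lemma of_mem_M {T : BK H0} (hT : T ∈ {T : BK H0 | ∀ S ∈ Jset, T * S ∈ Jset ∧ S * T ∈ Jset}) :
    T ∈ MS (ePS (E := H0)) := by
  rw [Jset_eq] at hT
  exact (MS_iff (ePS (E := H0)) T).2 hT

end Pool.Agent.W660.WvN
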