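import Pool.Agent.W660.WvN.Ideal

/-!
Perturbation: an almost idempotent element of finite spectrum gives an idempotent modulo ideals.
-/

set_option autoImplicit false

noncomputable section

open Filter Topology
open scoped ENNReal InnerProductSpace

namespace Pool.Agent.W660.WvN

section

variable {A : Type*} [CStarAlgebra A]

/-- the indicator of a half plane -/
def chi (z : ℂ) : ℂ := if z.re ≤ 1 / 2 then 0 else 1

/-- the quotient function -/
def mu (z : ℂ) : ℂ := if z.re ≤ 1 / 2 then (1 - z)⁻¹ else -z⁻¹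

lemma chi_mul (z : ℂ) : chi z * chi z = chi z := by
  unfold chi
  split_ifs <;> simp

lemma chi_sub (z : ℂ) : chi z - z = (z * z - z) * mu z := by
  unfold chi mu
  split_ifs with h
  · have h1 : (1 - z) ≠ 0 := by
      intro h2
      have : z = 1 := by linear_combination -h2
      rw [this] at h
      norm_num at h
    field_simp
    ring
  · have h1 : z ≠ 0 := by
      intro h2
      rw [h2] at h
      norm_num at h
    field_simp
    ring

lemma norm_chi (z : ℂ) : ‖chi z‖ ≤ 1 := by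
  unfold chi
  split_ifs <;> simp

lemma norm_mu (z : ℂ) : ‖mu z‖ ≤ 2 := by
  unfold mu
  split_ifs with h
  · rw [norm_inv]
    have h1 : (1 / 2 : ℝ) ≤ ‖1 - z‖ := by
      have h2 := (le_abs_self _).trans (Complex.abs_re_le_norm (1 - z))
      simp only [Complex.sub_re, Complex.one_re] at h2
      linarith
    calc ‖1 - z‖⁻¹ ≤ (1 / 2 : ℝ)⁻¹ := inv_anti₀ (by norm_num) h1
      _ = 2 := by norm_num
  · rw [norm_neg, norm_inv]
    have h1 : (1 / 2 : ℝ) ≤ ‖z‖ := by
      have h2 := (le_abs_self _).trans (Complex.abs_re_le_norm z)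
      have h3 := not_le.1 h
      linarith
    calc ‖z‖⁻¹ ≤ (1 / 2 : ℝ)⁻¹ := inv_anti₀ (by norm_num) h1
      _ = 2 := by norm_num

lemma fin_spec {M : StarSubalgebra ℂ A} (hM : IsClosed (M : Set A)) {S : A} (hSM : S ∈ M)
    (hS : IsSelfAdjoint S) (hfin : (spectrum ℂ S).Finite) :
    ∃ p ∈ M, ∃ m ∈ M, p * p = p ∧ p - S = (S * S - S) * m ∧ ‖p‖ ≤ 1 ∧ ‖m‖ ≤ 2 := by
  have hn : IsStarNormal S := hS.isStarNormal
  have hle : StarAlgebra.elemental ℂ S ≤ M := StarAlgebra.elemental.le_of_mem hM hSM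
  have hc : ContinuousOn chi (spectrum ℂ S) := hfin.continuousOn chi
  have hm : ContinuousOn mu (spectrum ℂ S) := hfin.continuousOn mu
  have hq : ContinuousOn (fun z : ℂ => z * z - z) (spectrum ℂ S) := hfin.continuousOn _
  refine ⟨cfc chi S, hle (cfc_mem_elemental chi S), cfc mu S, hle (cfc_mem_elemental mu S),
    ?_, ?_, ?_, ?_⟩
  · rw [← cfc_mul chi chi S hc hc]
    simp only [chi_mul]
  · have h1 : cfc chi S - S = cfc (fun z => chi z - z) S := by
      rw [cfc_sub chi (fun z => z) S hc (hfin.continuousOn _)]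
      rw [cfc_id' ℂ S]
    have h2 : S * S - S = cfc (fun z : ℂ => z * z - z) S := by
      rw [cfc_sub (fun z => z * z) (fun z => z) S (hfin.continuousOn _) (hfin.continuousOn _),
        cfc_mul (fun z => z) (fun z => z) S (hfin.continuousOn _) (hfin.continuousOn _),
        cfc_id' ℂ S]
    rw [h1, h2, ← cfc_mul (fun z : ℂ => z * z - z) mu S hq hm]
    simp only [chi_sub]
  · exact norm_cfc_le zero_le_one fun z _ => norm_chi z
  · exact norm_cfc_le (by norm_num) fun z _ => norm_mu z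

/-- submodules absorbing a subalgebra -/
structure RA (M : StarSubalgebra ℂ A) (V : Submodule ℂ A) : Prop where
  left : ∀ x ∈ M, ∀ y ∈ V, x * y ∈ V
  right : ∀ x ∈ M, ∀ y ∈ V, y * x ∈ V

lemma RA.sup {M : StarSubalgebra ℂ A} {V W : Submodule ℂ A} (hV : RId M V) (hW : RId M W) :
    RA M (V ⊔ W) := by
  refine ⟨fun x hx y hy => ?_, fun x hx y hy => ?_⟩
  · obtain ⟨a, ha, b, hb, rfl⟩ := Submodule.mem_sup.1 hy
    rw [mul_add]
    exact Submodule.add_mem_sup (hV.left x hx a ha) (hW.left x hx b hb)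
  · obtain ⟨a, ha, b, hb, rfl⟩ := Submodule.mem_sup.1 hy
    rw [add_mul]
    exact Submodule.add_mem_sup (hV.right x hx a ha) (hW.right x hx b hb)

lemma inverse_mem {M : StarSubalgebra ℂ A} (hM : IsClosed (M : Set A)) {y : A} (hy : y ∈ M)
    (h : ‖y‖ < 1) : ∃ z ∈ M, z * (1 - y) = 1 ∧ (1 - y) * z = 1 := by
  refine ⟨∑' n : ℕ, y ^ n, ?_, geom_series_mul_neg y h, mul_neg_geom_series y h⟩
  exact hM.mem_of_tendsto (summable_geometric_of_norm_lt_one h).hasSum
    (Eventually.of_forall fun s => sum_mem fun n _ => pow_mem hy n)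

/-- the idempotent -/
lemma exists_idem {M : StarSubalgebra ℂ A} (hM : IsClosed (M : Set A)) {V : Submodule ℂ A}
    (hV : RA M V) {T : A} (hT : T ∈ M) (hTi : T * T - T ∈ V)
    (happ : ∀ ε : ℝ, 0 < ε → ∃ S ∈ M, IsSelfAdjoint S ∧ (spectrum ℂ S).Finite ∧ ‖T - S‖ < ε) :
    ∃ q ∈ M, q * q = q ∧ T - q ∈ V := by
  obtain ⟨δ, hδ, hδ1, hδ2⟩ : ∃ δ : ℝ, 0 < δ ∧ δ ≤ 1 ∧ δ * (4 * ‖T‖ + 5) < 1 / 3 := by
    refine ⟨1 / (3 * (4 * ‖T‖ + 6)), by positivity, ?_, ?_⟩
    · rw [div_le_one (by positivity)]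
      nlinarith [norm_nonneg T]
    · rw [one_div, ← div_eq_inv_mul, div_lt_iff₀ (by positivity)]
      nlinarith [norm_nonneg T]
  obtain ⟨S, hSM, hS, hfin, hTS⟩ := happ δ hδ
  obtain ⟨p, hpM, m, hmM, hpp, hpS, hp1, hm2⟩ := fin_spec hM hSM hS hfin
  -- the decomposition of T - p
  obtain ⟨s, hs, k, hk, hsM, hTp, hs1⟩ : ∃ s : A, s ∈ M ∧ ∃ k ∈ V, k ∈ M ∧ T - p = s + k ∧
      ‖s‖ < 1 / 3 := by
    refine ⟨(T - S) - ((S * S - T * T) - (S - T)) * m, ?_, -((T * T - T) * m), ?_, ?_, ?_, ?_⟩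
    · exact sub_mem (sub_mem hT hSM) (mul_mem (sub_mem (sub_mem (mul_mem hSM hSM) (mul_mem hT hT))
        (sub_mem hSM hT)) hmM)
    · exact V.neg_mem (hV.right _ hmM _ hTi)
    · exact neg_mem (mul_mem (sub_mem (mul_mem hT hT) hT) hmM)
    · have h1 : T - p = (T - S) - (p - S) := by abel
      rw [h1, hpS]
      noncomm_ring
    · have h1 : S * S - T * T = S * (S - T) + (S - T) * T := by noncomm_ring
      have h2 : ‖S‖ ≤ ‖T‖ + 1 := by
        have h3 : S = T - (T - S) := by abel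
        rw [h3]
        refine (norm_sub_le _ _).trans ?_
        linarith
      have h3 : ‖S - T‖ < δ := by rwa [norm_sub_rev]
      have h4 : ‖S * S - T * T‖ ≤ (‖T‖ + 1) * δ + δ * ‖T‖ := by
        rw [h1]
        refine (norm_add_le _ _).trans (add_le_add ?_ ?_)
        · refine (norm_mul_le _ _).trans ?_
          exact mul_le_mul h2 h3.le (norm_nonneg _) (by positivity)
        · refine (norm_mul_le _ _).trans ?_
          exact mul_le_mul h3.le le_rfl (norm_nonneg _) hδ.le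
      have h5 : ‖((S * S - T * T) - (S - T)) * m‖ ≤ ((‖T‖ + 1) * δ + δ * ‖T‖ + δ) * 2 := by
        refine (norm_mul_le _ _).trans ?_
        refine mul_le_mul ?_ hm2 (norm_nonneg _) (by positivity)
        refine (norm_sub_le _ _).trans ?_
        linarith
      refine (norm_sub_le _ _).trans_lt ?_
      nlinarith
  -- the intertwiner
  have hs2 : ‖-((2 * p - 1) * s)‖ < 1 := by
    rw [norm_neg]
    have h1 : ‖(2 * p - 1 : A)‖ ≤ 3 := by
      have h2 : (2 * p - 1 : A) = p + p - 1 := by rw [two_mul]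
      rw [h2]
      refine (norm_sub_le _ _).trans ?_
      have h3 := norm_add_le p p
      have h4 : ‖(1 : A)‖ ≤ 1 := by
        rcases subsingleton_or_nontrivial A with h | h
        · rw [Subsingleton.elim (1 : A) 0, norm_zero]; norm_num
        · rw [CStarRing.norm_one]
      linarith
    calc ‖(2 * p - 1) * s‖ ≤ ‖2 * p - 1‖ * ‖s‖ := norm_mul_le _ _
      _ ≤ 3 * ‖s‖ := by gcongr
      _ < 1 := by linarith
  have h2M : (2 * p - 1 : A) ∈ M := by
    rw [two_mul]
    exact sub_mem (add_mem hpM hpM) (one_mem M)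
  obtain ⟨z, hzM, hz1, hz2⟩ := inverse_mem hM (neg_mem (mul_mem h2M hs)) hs2
  set x : A := 1 - -((2 * p - 1) * s) with hx
  have hxM : x ∈ M := sub_mem (one_mem M) (neg_mem (mul_mem h2M hs))
  refine ⟨z * p * x, mul_mem (mul_mem hzM hpM) hxM, ?_, ?_⟩
  · calc z * p * x * (z * p * x) = z * p * (x * z) * p * x := by noncomm_ring
      _ = z * (p * p) * x := by rw [hz2]; noncomm_ring
      _ = z * p * x := by rw [hpp]
  · have h1 : x * T - p * x = (2 * p - 1) * (T * T - T) - ((2 * p - 1) * k) * T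
        + p * ((2 * p - 1) * k) := by
      have h2 : x = p * T + (1 - p) * (1 - T) - (2 * p - 1) * k := by
        have h3 : s = T - p - k := by rw [hTp]; abel
        rw [hx, h3]
        have h4 : (2 * p - 1) * (T - p - k) = 2 * (p * T) - 2 * (p * p) - T + p
            - (2 * p - 1) * k := by noncomm_ring
        rw [h4, hpp]
        noncomm_ring
      have h5 : p * (p * T) = p * T := by rw [← mul_assoc, hpp]
      have h6 : p * ((1 - p) * (1 - T)) = 0 := by
        have : p * ((1 - p) * (1 - T)) = (p - p * p) * (1 - T) := by noncomm_ring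
        rw [this, hpp, sub_self, zero_mul]
      have h7 : p * x = p * T - p * ((2 * p - 1) * k) := by
        rw [h2, mul_sub, mul_add, h5, h6, add_zero]
      rw [h7, h2]
      noncomm_ring
    have h8 : T - z * p * x = z * (x * T - p * x) := by
      have h9 : z * (x * T - p * x) = (z * x) * T - z * p * x := by noncomm_ring
      rw [h9, hz1, one_mul]
    rw [h8]
    refine hV.left z hzM _ ?_
    rw [h1]
    exact V.add_mem (V.sub_mem (hV.left _ h2M _ hTi)
      (hV.right _ hT _ (hV.left _ h2M _ hk))) (hV.left _ hpM _ (hV.left _ h2M _ hk))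

/-- the conclusion for the exponential -/
theorem exists_W {M : StarSubalgebra ℂ A} (hM : IsClosed (M : Set A)) {V W : Submodule ℂ A}
    (hV : RId M V) (hW : RId M W) (hVM : ∀ x ∈ V, x ∈ M) {T : A} (hT : T ∈ M)
    (hTi : T * T - T ∈ V ⊔ W) {c : ℂ} (hc : Complex.exp c = 1)
    (happ : ∀ ε : ℝ, 0 < ε → ∃ S ∈ M, IsSelfAdjoint S ∧ (spectrum ℂ S).Finite ∧ ‖T - S‖ < ε) :
    ∃ u : A, IsUnit u ∧ u - 1 ∈ V ∧ NormedSpace.exp (c • T) - u ∈ W := by
  obtain ⟨q, hqM, hqq, hTq⟩ := exists_idem hM (RA.sup hV hW) hT hTi happ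
  obtain ⟨j, hj, i, hi, hij⟩ := Submodule.mem_sup.1 hTq
  have h0 : q + j ∈ M := add_mem hqM (hVM j hj)
  let _ : NormedAlgebra ℚ A := NormedAlgebra.restrictScalars ℚ ℂ A
  refine ⟨NormedSpace.exp (c • (q + j)), NormedSpace.isUnit_exp _, ?_, ?_⟩
  · have h1 := hV.exp_sub (M.smul_mem h0 c) (M.smul_mem hqM c)
      (by rw [← smul_sub, add_sub_cancel_left]; exact V.smul_mem c hj)
    rwa [exp_smul_idem hqq hc] at h1
  · refine hW.exp_sub (M.smul_mem hT c) (M.smul_mem h0 c) ?_
    rw [← smul_sub]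
    refine W.smul_mem c ?_
    have h1 : T - (q + j) = i := by
      have h2 : T = q + (j + i) := by rw [hij]; abel
      rw [h2]; abel
    rw [h1]
    exact hi

end

end Pool.Agent.W660.WvN
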