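import Pool.Agent.W660.WvN.Lp
import Pool.Agent.W660.WvN.Pert

/-!
The ideal of operators with compact entries.
-/

set_option autoImplicit false

noncomputable section

open Filter Topology
open scoped ENNReal InnerProductSpace

namespace Pool.Agent.W660.WvN

section abs

variable {A : Type*} [CStarAlgebra A] {e : ℕ → A}

lemma lim_left (h : PSeq e) {x : A} (hx : x ∈ MS h) (k : ℕ) :
    Tendsto (fun N => e N * x * e k) atTop (𝓝 (x * e k)) := by
  have h1 := (tl_iff _).1 (hx.1 k)
  have h2 : Tendsto (fun N => x * e k - (1 - e N) * (x * e k)) atTop (𝓝 (x * e k - 0)) :=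
    tendsto_const_nhds.sub h1
  rw [sub_zero] at h2
  refine h2.congr fun N => ?_
  noncomm_ring

lemma lim_right (h : PSeq e) {x : A} (hx : x ∈ MS h) (k : ℕ) :
    Tendsto (fun N => e k * x * e N) atTop (𝓝 (e k * x)) := by
  have h1 := (lim_left h (star_mem hx) k).star
  simp only [star_mul, star_star, h.star] at h1
  simpa only [mul_assoc] using h1

lemma lim_J {x : A} (hx : x ∈ JS e) :
    Tendsto (fun N => e N * x) atTop (𝓝 x) := by
  have h1 := (tl_iff _).1 hx.1
  have h2 : Tendsto (fun N => x - (1 - e N) * x) atTop (𝓝 (x - 0)) :=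
    tendsto_const_nhds.sub h1
  rw [sub_zero] at h2
  refine h2.congr fun N => ?_
  noncomm_ring

end abs

section

variable {E : Type} [NormedAddCommGroup E] [InnerProductSpace ℂ E]

/-- bounded operators on the sequence space -/
abbrev BK (E : Type) [NormedAddCommGroup E] [InnerProductSpace ℂ E] : Type :=
  KK E →L[ℂ] KK E

lemma norm_pr (i : ℕ) : ‖(pr i : KK E →L[ℂ] E)‖ ≤ 1 :=
  LinearMap.mkContinuous_norm_le _ zero_le_one _

lemma norm_io_apply (i : ℕ) (v : E) : ‖(io i v : KK E)‖ = ‖v‖ := by
  have h1 : ‖(io i v : KK E)‖ ^ 2 = ‖v‖ ^ 2 := by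
    rw [norm_sq_KK, tsum_eq_single i]
    · rw [io_apply, if_pos rfl]
    · intro j hj
      rw [io_apply, if_neg hj]
      simp
  exact (sq_eq_sq₀ (norm_nonneg _) (norm_nonneg _)).1 h1

lemma norm_io (i : ℕ) : ‖(io i : E →L[ℂ] KK E)‖ ≤ 1 :=
  ContinuousLinearMap.opNorm_le_bound _ zero_le_one fun v => by
    rw [norm_io_apply, one_mul]

/-- the entries of an operator -/
def ent (i j : ℕ) : BK E →L[ℂ] (E →L[ℂ] E) :=
  LinearMap.mkContinuous
    { toFun := fun X : BK E => (pr i).comp (X.comp (io j))
      map_add' := fun X Y => by ext x; rfl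
      map_smul' := fun c X => by ext x; rfl } 1 (fun X : BK E => by
        rw [one_mul]
        have h1 := norm_pr (E := E) i
        have h2 := norm_io (E := E) j
        calc ‖(pr i).comp (X.comp (io j))‖ ≤ ‖(pr i : KK E →L[ℂ] E)‖ * ‖X.comp (io j)‖ :=
              ContinuousLinearMap.opNorm_comp_le _ _
          _ ≤ 1 * (‖X‖ * ‖(io j : E →L[ℂ] KK E)‖) := by
              gcongr
              exact ContinuousLinearMap.opNorm_comp_le _ _
          _ ≤ 1 * (‖X‖ * 1) := by gcongr
          _ = ‖X‖ := by ring)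

lemma ent_apply (i j : ℕ) (X : BK E) (v : E) : ent i j X v = (X (io j v)) i := rfl

lemma ent_one (i j : ℕ) : ent i j (1 : BK E) = if i = j then 1 else 0 := by
  ext v
  rw [ent_apply]
  show (io j v : KK E) i = _
  rw [io_apply]
  split_ifs <;> rfl

lemma ee_io {N j : ℕ} (h : j < N) (v : E) : ee N (io j v : KK E) = io j v := by
  ext i
  rw [ee_apply, io_apply]
  split_ifs <;> first | rfl | omega

lemma ent_ee_mul {N i : ℕ} (j : ℕ) (h : i < N) (X : BK E) : ent i j (ee N * X) = ent i j X := by
  ext v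
  rw [ent_apply, ent_apply]
  show (ee N (X (io j v))) i = _
  rw [ee_apply, if_pos h]

lemma ent_mul_ee {N j : ℕ} (i : ℕ) (h : j < N) (X : BK E) : ent i j (X * ee N) = ent i j X := by
  ext v
  rw [ent_apply, ent_apply]
  show (X (ee N (io j v))) i = _
  rw [ee_io h]

lemma ee_sum_apply (N : ℕ) (x : KK E) : ee N x = ∑ k ∈ Finset.range N, (io k (x k) : KK E) := by
  rw [ee, sum_apply]
  rfl

lemma ent_mul_sum (i j N : ℕ) (X Y : BK E) :
    ent i j (X * ee N * Y) = ∑ k ∈ Finset.range N, ent i k X * ent k j Y := by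
  ext v
  rw [ent_apply, sum_apply]
  have h1 : (X * ee N * Y : BK E) (io j v) = X (ee N (Y (io j v))) := rfl
  rw [h1, ee_sum_apply, map_sum]
  have h2 := map_sum (pr (E := E) i) (fun k => X (io k ((Y (io j v)) k) : KK E)) (Finset.range N)
  exact h2

lemma ee_mul_ee (N M : ℕ) (X : BK E) : ee N * X * ee M
    = ∑ i ∈ Finset.range N, ∑ j ∈ Finset.range M, (io i).comp ((ent i j X).comp (pr j)) := by
  ext v : 1
  have h1 : (ee N * X * ee M : BK E) v = ee N (X (ee M v)) := rfl
  rw [h1, ee_sum_apply N, ee_sum_apply M, map_sum, sum_apply]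
  refine Finset.sum_congr rfl fun i _ => ?_
  rw [sum_apply]
  have h2 : ∀ j, ((io i).comp ((ent i j X).comp (pr j))) v
      = (io i ((X (io j (v j))) i) : KK E) := fun j => rfl
  simp only [h2]
  have h3 := map_sum (pr (E := E) i) (fun j => X (io j (v j) : KK E)) (Finset.range M)
  have h4 : (∑ j ∈ Finset.range M, X (io j (v j) : KK E)) i
      = ∑ j ∈ Finset.range M, (X (io j (v j) : KK E)) i := h3
  rw [h4, map_sum]

variable (E) in
/-- operators all of whose entries are compact -/
def IS : Submodule ℂ (BK E) where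
  carrier := {X | ∀ i j, IsCompactOperator (ent i j X)}
  add_mem' := by
    intro a b h1 h2 i j
    rw [map_add]
    exact (h1 i j).add (h2 i j)
  zero_mem' := by
    intro i j
    rw [map_zero]
    exact isCompactOperator_zero
  smul_mem' := by
    intro c a h i j
    rw [map_smul]
    exact (h i j).smul c

lemma IS_mem {X : BK E} : X ∈ IS E ↔ ∀ i j, IsCompactOperator (ent i j X) := Iff.rfl

variable [CompleteSpace E]

lemma ePS : PSeq (fun N => (ee N : BK E)) :=
  ⟨fun N M => ee_mul N M, fun N => ee_star N, fun N => norm_one_sub_ee N⟩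

lemma IS_closed : IsClosed (IS E : Set (BK E)) := by
  have h1 : (IS E : Set (BK E)) = ⋂ i, ⋂ j, (fun X : BK E => ent i j X) ⁻¹'
      {f : E →L[ℂ] E | IsCompactOperator f} := by
    ext X
    simp [IS]
  rw [h1]
  refine isClosed_iInter fun i => isClosed_iInter fun j => ?_
  exact isClosed_setOfPred_isCompactOperator.preimage (ent i j).continuous

lemma compact_sum {ι : Type*} (s : Finset ι) {F G : Type} [NormedAddCommGroup F]
    [NormedSpace ℂ F] [NormedAddCommGroup G] [NormedSpace ℂ G] (f : ι → F →L[ℂ] G)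
    (h : ∀ i ∈ s, IsCompactOperator (f i)) :
    IsCompactOperator ((∑ i ∈ s, f i : F →L[ℂ] G) : F → G) :=
  (compactOperator (RingHom.id ℂ) F G).sum_mem h

lemma IS_RId : RId (MS (ePS (E := E))) (IS E) := by
  refine ⟨IS_closed, fun x hx y hy i j => ?_, fun x hx y hy i j => ?_⟩
  · have h1 := (lim_right ePS hx (i + 1)).mul_const y
    have h2 := ((ent (E := E) i j).continuous.tendsto _).comp h1
    have h3 : ent i j (ee (i + 1) * x * y) = ent i j (x * y) := by
      rw [mul_assoc, ent_ee_mul j (Nat.lt_succ_self i)]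
    rw [h3] at h2
    refine isCompactOperator_of_tendsto h2 (Eventually.of_forall fun N => ?_)
    have h4 : ent i j (ee (i + 1) * x * ee N * y) = ent i j (x * ee N * y) := by
      rw [mul_assoc, mul_assoc, ent_ee_mul j (Nat.lt_succ_self i), mul_assoc]
    show IsCompactOperator (ent i j (ee (i + 1) * x * ee N * y))
    rw [h4, ent_mul_sum]
    refine compact_sum _ _ fun k _ => ?_
    exact (hy k j).clm_comp (ent i k x)
  · have h1 := (lim_left ePS hx (j + 1)).const_mul y
    have h2 := ((ent (E := E) i j).continuous.tendsto _).comp h1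
    have h3 : ent i j (y * (x * ee (j + 1))) = ent i j (y * x) := by
      rw [← mul_assoc, ent_mul_ee i (Nat.lt_succ_self j)]
    rw [h3] at h2
    refine isCompactOperator_of_tendsto h2 (Eventually.of_forall fun N => ?_)
    have h4 : ent i j (y * (ee N * x * ee (j + 1))) = ent i j (y * ee N * x) := by
      rw [← mul_assoc, ent_mul_ee i (Nat.lt_succ_self j), mul_assoc, ← mul_assoc]
    show IsCompactOperator (ent i j (y * (ee N * x * ee (j + 1))))
    rw [h4, ent_mul_sum]
    refine compact_sum _ _ fun k _ => ?_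
    exact (hy i k).comp_clm (ent k j x)

lemma compact_of_mem {X : BK E} (h1 : X ∈ JS (fun N => (ee N : BK E))) (h2 : X ∈ IS E) :
    IsCompactOperator X := by
  refine isCompactOperator_of_tendsto (lim_J h1) (Eventually.of_forall fun N => ?_)
  refine isCompactOperator_of_tendsto (lim_right ePS (JS_sub_MS ePS h1) N)
    (Eventually.of_forall fun M => ?_)
  show IsCompactOperator (ee N * X * ee M : BK E)
  rw [ee_mul_ee]
  refine compact_sum _ _ fun i _ => compact_sum _ _ fun j _ => ?_
  exact ((h2 i j).comp_clm (pr j)).clm_comp (io i)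

end

end Pool.Agent.W660.WvN
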