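import Pool.Agent.W660.WvN.Index

/-!
The self-adjoint element, its powers and its exponential modulo compact entries.
-/

set_option autoImplicit false

noncomputable section

open Filter Topology
open scoped ENNReal InnerProductSpace
open Pool.Agent.Helper757.GL (CI Q mk mkHom)

namespace Pool.Agent.W660.WvN

/-! ### functions -/

/-- a continuous complex function from a real one -/
def rf (φ : ℂ → ℝ) (h : Continuous φ) : C(X0, ℂ) :=
  ⟨fun z => ((φ (z : ℂ) : ℝ) : ℂ), by fun_prop⟩

lemma rf_star (φ : ℂ → ℝ) (h : Continuous φ) : star (rf φ h) = rf φ h := by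
  ext z
  exact Complex.conj_ofReal _

/-- first function -/
def ff : C(X0, ℂ) := rf (fun z => (1 - z.im) / 2) (by fun_prop)

/-- second function -/
def gg : C(X0, ℂ) := rf (fun z => max z.re 0 / 2) (by fun_prop)

/-- third function -/
def ll : C(X0, ℂ) := rf (fun z => max (-z.re) 0 / 2) (by fun_prop)

lemma X0_sq (z : X0) : (z : ℂ).re ^ 2 + (z : ℂ).im ^ 2 = 1 := by
  have h7 : ‖(z : ℂ)‖ ^ 2 = (z : ℂ).re ^ 2 + (z : ℂ).im ^ 2 := by
    rw [← Complex.normSq_eq_norm_sq, Complex.normSq_apply]
    ring
  rw [← h7, X0_norm, one_pow]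

lemma ff_apply (z : X0) : ff z = (((1 - (z : ℂ).im) / 2 : ℝ) : ℂ) := rfl
lemma gg_apply (z : X0) : gg z = ((max (z : ℂ).re 0 / 2 : ℝ) : ℂ) := rfl
lemma ll_apply (z : X0) : ll z = ((max (-(z : ℂ).re) 0 / 2 : ℝ) : ℂ) := rfl

lemma fgl : ff * ff + gg * gg + ll * ll = ff := by
  ext z
  show ff z * ff z + gg z * gg z + ll z * ll z = ff z
  rw [ff_apply, gg_apply, ll_apply, ← Complex.ofReal_mul, ← Complex.ofReal_mul,
    ← Complex.ofReal_mul, ← Complex.ofReal_add, ← Complex.ofReal_add]
  congr 1
  have h3 := X0_sq z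
  rcases le_total (z : ℂ).re 0 with h | h
  · rw [max_eq_right h, max_eq_left (by linarith)]
    nlinarith
  · rw [max_eq_left h, max_eq_right (by linarith)]
    nlinarith

lemma gl : gg * ll = 0 := by
  ext z
  show gg z * ll z = 0
  rw [gg_apply, ll_apply]
  rcases le_total (z : ℂ).re 0 with h | h
  · rw [max_eq_right h]
    simp
  · rw [max_eq_right (a := -(z : ℂ).re) (by linarith)]
    simp

/-- diagonal symbols -/
def ah (i : ℕ) : C(X0, ℂ) := if Even i then ff else 1 - ff

/-- off diagonal symbols -/
def bh (i : ℕ) : C(X0, ℂ) := if Even i then gg else ll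

lemma r1 (i : ℕ) : ah i + ah (i + 1) = 1 := by
  unfold ah
  by_cases h : Even i
  · rw [if_pos h, if_neg (by rw [Nat.even_add_one]; exact not_not.2 h)]
    ring
  · rw [if_neg h, if_pos (by rw [Nat.even_add_one]; exact h)]
    ring

lemma r2 (i : ℕ) : bh i * bh (i + 1) = 0 := by
  unfold bh
  by_cases h : Even i
  · rw [if_pos h, if_neg (by rw [Nat.even_add_one]; exact not_not.2 h)]
    exact gl
  · rw [if_neg h, if_pos (by rw [Nat.even_add_one]; exact h), mul_comm]
    exact gl

lemma r3 : ah 0 * ah 0 + bh 0 * bh 0 = ah 0 - ll * ll := by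
  have h1 : ah 0 = ff := if_pos (by decide)
  have h2 : bh 0 = gg := if_pos (by decide)
  rw [h1, h2]
  linear_combination fgl

lemma r4 (i : ℕ) : ah (i + 1) * ah (i + 1) + bh i * bh i + bh (i + 1) * bh (i + 1)
    = ah (i + 1) := by
  unfold ah bh
  by_cases h : Even i
  · have h' : ¬ Even (i + 1) := by rw [Nat.even_add_one]; exact not_not.2 h
    rw [if_pos h, if_neg h', if_neg h']
    linear_combination fgl
  · have h' : Even (i + 1) := by rw [Nat.even_add_one]; exact h
    rw [if_neg h, if_pos h', if_pos h']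
    linear_combination fgl

/-- matrix of symbols -/
def ta (i j : ℕ) : C(X0, ℂ) :=
  if i = j then ah i else if i = j + 1 then bh j else if j = i + 1 then bh i else 0

/-- the corner functions -/
def vv : ℕ → C(X0, ℂ)
  | 0 => 0
  | (k + 1) => ll * ll + ff * vv k

lemma gg_vv (k : ℕ) : gg * vv k = 0 := by
  induction k with
  | zero => simp [vv]
  | succ k ih =>
    rw [vv]
    linear_combination ll * gl + ff * ih

/-- symbols of powers -/
def sg (k i j : ℕ) : C(X0, ℂ) := ta i j - if i = 0 ∧ j = 0 then vv k else 0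

lemma row_zero (k j : ℕ) : ah 0 * sg k 0 j + bh 0 * sg k 1 j = sg (k + 1) 0 j := by
  unfold sg ta
  rcases j with _ | _ | _ | j
  · simp only [if_true, and_self, zero_add, one_ne_zero, false_and, if_false, vv]
    have h1 : ah 0 = ff := if_pos (by decide)
    have h2 := r3
    rw [h1] at *
    linear_combination h2
  · have h1 := r1 0
    simp only [zero_add] at *
    simp
    linear_combination bh 0 * h1
  · have h1 := r2 0
    simp only [zero_add] at *
    simp
    exact h1
  · simp

lemma row_succ (k i j : ℕ) : ah (i + 1) * sg k (i + 1) j + bh i * sg k i j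
    + bh (i + 1) * sg k (i + 2) j = sg (k + 1) (i + 1) j := by
  unfold sg ta
  by_cases h1 : j = i + 1
  · subst h1
    have h := r4 i
    have e1 : ¬ i = i + 1 + 1 := by omega
    simp [e1]
    linear_combination h
  by_cases h2 : j = i
  · subst h2
    have h := r1 j
    by_cases h0 : j = 0
    · subst h0
      have h3 := gg_vv k
      have h4 : bh 0 = gg := if_pos (by decide)
      simp only [zero_add] at *
      simp
      rw [h4] at *
      linear_combination gg * h - h3
    · have e1 : ¬ j = j + 2 + 1 := by omega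
      have e2 : ¬ j + 2 = j := by omega
      simp [h0, e1, e2]
      linear_combination bh j * h
  by_cases h3 : j = i + 2
  · subst h3
    have h := r1 (i + 1)
    have e1 : ¬ i = i + 2 + 1 := by omega
    simp [e1]
    linear_combination bh (i + 1) * h
  by_cases h4 : j + 1 = i
  · subst h4
    have h := r2 j
    have e1 : ¬ j + 1 + 1 = j := by omega
    have e2 : ¬ j = j + 1 + 1 + 1 := by omega
    have e3 : ¬ j + 1 + 2 = j := by omega
    have e4 : ¬ j = j + 1 + 2 + 1 := by omega
    have e5 : ¬ j + 1 + 2 = j + 1 := by omega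
    simp [e1, e2, e3, e4, e5]
    linear_combination h
  by_cases h5 : j = i + 3
  · subst h5
    have h := r2 (i + 1)
    have e1 : ¬ i = i + 3 + 1 := by omega
    simp [e1]
    exact h
  · have e1 : ¬ i + 1 = j := fun h => h1 h.symm
    have e2 : ¬ i = j := fun h => h2 h.symm
    have e3 : ¬ i + 2 = j := fun h => h3 h.symm
    have e4 : ¬ i = j + 1 := fun h => h4 h.symm
    have e5 : ¬ i + 1 = j + 1 := by omega
    have e6 : ¬ i + 2 = j + 1 := by omega
    have e7 : ¬ j = i + 2 + 1 := by omega
    have e8 : ¬ (i = 0 ∧ j = 0) := by omega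
    simp [e1, e2, e3, e4, e6, e7, e8, h1, h3]

end Pool.Agent.W660.WvN
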