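import Mathlib

/-!
The ideal of elements with vanishing tails with respect to an increasing sequence of projections,
and its multiplier algebra.
-/

set_option autoImplicit false

noncomputable section

open Filter Topology
open scoped ENNReal InnerProductSpace

namespace Pool.Agent.W660.WvN

section

variable {A : Type*} [CStarAlgebra A] (e : ℕ → A)

/-- an increasing sequence of projections -/
structure PSeq (e : ℕ → A) : Prop where
  mul : ∀ N M, e N * e M = e (min N M)
  star : ∀ N, star (e N) = e N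
  norm : ∀ N, ‖1 - e N‖ ≤ 1

/-- elements with vanishing tails -/
def tl (S : A) : Prop := ∀ ε > 0, ∃ N, ∀ n ≥ N, ‖(1 - e n) * S‖ < ε

variable {e}

lemma tl_iff (S : A) : tl e S ↔ Tendsto (fun n => (1 - e n) * S) atTop (𝓝 0) := by
  unfold tl
  rw [Metric.tendsto_atTop]
  simp only [dist_zero_right]

lemma tl_zero : tl e (0 : A) := by
  rw [tl_iff]
  simp

lemma tl_add {S T : A} (hS : tl e S) (hT : tl e T) : tl e (S + T) := by
  rw [tl_iff] at *
  simpa [mul_add] using hS.add hT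

lemma tl_neg {S : A} (hS : tl e S) : tl e (-S) := by
  rw [tl_iff] at *
  simpa [mul_neg] using hS.neg

lemma tl_smul {S : A} (c : ℂ) (hS : tl e S) : tl e (c • S) := by
  rw [tl_iff] at *
  simpa [mul_smul_comm] using hS.const_smul c

lemma tl_mul_right {S : A} (hS : tl e S) (T : A) : tl e (S * T) := by
  rw [tl_iff] at *
  have := hS.mul_const T
  simpa [mul_assoc] using this

lemma norm_tail_le (h : PSeq e) (N : ℕ) (S : A) : ‖(1 - e N) * S‖ ≤ ‖S‖ := by
  refine (norm_mul_le _ _).trans ?_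
  have := h.norm N
  nlinarith [norm_nonneg S]

lemma tl_closed (h : PSeq e) : IsClosed {S : A | tl e S} := by
  refine isClosed_of_closure_subset fun S hS => ?_
  rw [Metric.mem_closure_iff] at hS
  intro ε hε
  obtain ⟨S', hS', h1⟩ := hS (ε / 2) (half_pos hε)
  obtain ⟨N, hN⟩ := hS' (ε / 2) (half_pos hε)
  refine ⟨N, fun n hn => ?_⟩
  have h2 : (1 - e n) * S = (1 - e n) * S' + (1 - e n) * (S - S') := by
    rw [mul_sub]; abel
  rw [h2]
  refine (norm_add_le _ _).trans_lt ?_
  have h3 := hN n hn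
  have h4 := norm_tail_le h n (S - S')
  rw [dist_eq_norm] at h1
  linarith

lemma tail_mul_ee (h : PSeq e) {n N : ℕ} (hn : N ≤ n) : (1 - e n) * e N = 0 := by
  rw [sub_mul, one_mul, h.mul, min_eq_right hn, sub_self]

lemma tl_ee_mul (h : PSeq e) (N : ℕ) (S : A) : tl e (e N * S) := by
  intro ε hε
  refine ⟨N, fun n hn => ?_⟩
  rw [← mul_assoc, tail_mul_ee h hn, zero_mul, norm_zero]
  exact hε

lemma tl_ee (h : PSeq e) (N : ℕ) : tl e (e N) := by
  have := tl_ee_mul h N 1
  rwa [mul_one] at this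

variable (e) in
/-- left multipliers of the tail condition -/
def mm (T : A) : Prop := ∀ N, tl e (T * e N)

lemma tl_mul_left (h : PSeq e) {T S : A} (hT : mm e T) (hS : tl e S) : tl e (T * S) := by
  intro ε hε
  obtain ⟨N, hN⟩ := hS (ε / 2 / (‖T‖ + 1)) (by positivity)
  obtain ⟨M, hM⟩ := (hT N) (ε / 2 / (‖S‖ + 1)) (by positivity)
  refine ⟨M, fun n hn => ?_⟩
  have h2 : (1 - e n) * (T * S)
      = ((1 - e n) * (T * e N)) * S + (1 - e n) * (T * ((1 - e N) * S)) := by
    noncomm_ring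
  rw [h2]
  refine (norm_add_le _ _).trans_lt ?_
  have h3 : ‖((1 - e n) * (T * e N)) * S‖ < ε / 2 := by
    have h4 := hM n hn
    rw [lt_div_iff₀ (by positivity)] at h4
    refine (norm_mul_le _ _).trans_lt (lt_of_le_of_lt ?_ h4)
    gcongr
    linarith
  have h5 : ‖(1 - e n) * (T * ((1 - e N) * S))‖ < ε / 2 := by
    refine (norm_tail_le h _ _).trans_lt ?_
    have h4 := hN N le_rfl
    rw [lt_div_iff₀ (by positivity)] at h4
    refine (norm_mul_le _ _).trans_lt (lt_of_le_of_lt ?_ h4)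
    rw [mul_comm]
    gcongr
    linarith
  linarith

variable (e) in
/-- the ideal -/
def JS : Submodule ℂ A where
  carrier := {S | tl e S ∧ tl e (star S)}
  add_mem' := by
    rintro a b ⟨h1, h2⟩ ⟨h3, h4⟩
    refine ⟨tl_add h1 h3, ?_⟩
    rw [star_add]
    exact tl_add h2 h4
  zero_mem' := ⟨tl_zero, by rw [star_zero]; exact tl_zero⟩
  smul_mem' := by
    rintro c a ⟨h1, h2⟩
    refine ⟨tl_smul c h1, ?_⟩
    rw [star_smul]
    exact tl_smul _ h2

lemma JS_mem {S : A} : S ∈ JS e ↔ tl e S ∧ tl e (star S) := Iff.rfl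

lemma JS_closed (h : PSeq e) : IsClosed (JS e : Set A) := by
  have h1 : (JS e : Set A) = {S | tl e S} ∩ (star : A → A) ⁻¹' {S | tl e S} := rfl
  rw [h1]
  exact (tl_closed h).inter ((tl_closed h).preimage continuous_star)

/-- the multiplier algebra -/
def MS (h : PSeq e) : StarSubalgebra ℂ A where
  carrier := {T | mm e T ∧ mm e (star T)}
  mul_mem' := by
    rintro a b ⟨h1, h2⟩ ⟨h3, h4⟩
    refine ⟨fun N => ?_, fun N => ?_⟩
    · rw [mul_assoc]
      exact tl_mul_left h h1 (h3 N)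
    · rw [star_mul, mul_assoc]
      exact tl_mul_left h h4 (h2 N)
  add_mem' := by
    rintro a b ⟨h1, h2⟩ ⟨h3, h4⟩
    refine ⟨fun N => ?_, fun N => ?_⟩
    · rw [add_mul]
      exact tl_add (h1 N) (h3 N)
    · rw [star_add, add_mul]
      exact tl_add (h2 N) (h4 N)
  algebraMap_mem' := by
    intro c
    have h1 : ∀ c : ℂ, mm e (algebraMap ℂ A c) := by
      intro c N
      rw [Algebra.algebraMap_eq_smul_one, smul_mul_assoc, one_mul]
      exact tl_smul c (tl_ee h N)
    refine ⟨h1 c, ?_⟩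
    rw [← algebraMap_star_comm]
    exact h1 _
  star_mem' := by
    rintro a ⟨h1, h2⟩
    refine ⟨h2, ?_⟩
    rw [star_star]
    exact h1

lemma MS_mem (h : PSeq e) {S : A} : S ∈ MS h ↔ mm e S ∧ mm e (star S) := Iff.rfl

lemma MS_closed (h : PSeq e) : IsClosed (MS h : Set A) := by
  have h0 : IsClosed {T : A | mm e T} := by
    have : {T : A | mm e T} = ⋂ N, (fun T : A => T * e N) ⁻¹' {S | tl e S} := by
      ext T
      simp [mm]
    rw [this]
    exact isClosed_iInter fun N => (tl_closed h).preimage (by fun_prop)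
  have h1 : (MS h : Set A) = {S | mm e S} ∩ (star : A → A) ⁻¹' {S | mm e S} := rfl
  rw [h1]
  exact h0.inter (h0.preimage continuous_star)

lemma JS_mul_left (h : PSeq e) {T S : A} (hT : T ∈ MS h) (hS : S ∈ JS e) : T * S ∈ JS e := by
  refine ⟨tl_mul_left h hT.1 hS.1, ?_⟩
  rw [star_mul]
  exact tl_mul_right hS.2 _

lemma JS_mul_right (h : PSeq e) {T S : A} (hT : T ∈ MS h) (hS : S ∈ JS e) : S * T ∈ JS e := by
  refine ⟨tl_mul_right hS.1 _, ?_⟩
  rw [star_mul]
  exact tl_mul_left h hT.2 hS.2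

lemma ee_mem_JS (h : PSeq e) (N : ℕ) : e N ∈ JS e := by
  refine ⟨tl_ee h N, ?_⟩
  rw [h.star]
  exact tl_ee h N

lemma ee_mem_MS (h : PSeq e) (N : ℕ) : e N ∈ MS h := by
  have h1 : mm e (e N) := fun M => tl_ee_mul h N _
  refine ⟨h1, ?_⟩
  rw [h.star]
  exact h1

/-- a finite block lies in the ideal -/
lemma block_mem_JS (h : PSeq e) {N : ℕ} {S : A} (h1 : e N * S = S) (h2 : S * e N = S) :
    S ∈ JS e := by
  refine ⟨?_, ?_⟩
  · rw [← h1]
    exact tl_ee_mul h N S
  · rw [← h2, star_mul, h.star]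
    exact tl_ee_mul h N _

lemma MS_iff (h : PSeq e) (T : A) : T ∈ MS h ↔ ∀ S ∈ JS e, T * S ∈ JS e ∧ S * T ∈ JS e := by
  constructor
  · intro hT S hS
    exact ⟨JS_mul_left h hT hS, JS_mul_right h hT hS⟩
  · intro hT
    refine ⟨fun N => (hT _ (ee_mem_JS h N)).1.1, fun N => ?_⟩
    have h1 := (hT _ (ee_mem_JS h N)).2.2
    rw [star_mul, h.star] at h1
    exact h1

lemma JS_sub_MS (h : PSeq e) {S : A} (hS : S ∈ JS e) : S ∈ MS h :=
  ⟨fun _ => tl_mul_right hS.1 _, fun _ => tl_mul_right hS.2 _⟩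

/-- a closed two-sided ideal relative to a subalgebra -/
structure RId (M : StarSubalgebra ℂ A) (V : Submodule ℂ A) : Prop where
  closed : IsClosed (V : Set A)
  left : ∀ x ∈ M, ∀ y ∈ V, x * y ∈ V
  right : ∀ x ∈ M, ∀ y ∈ V, y * x ∈ V

lemma JS_RId (h : PSeq e) : RId (MS h) (JS e) :=
  ⟨JS_closed h, fun _ hx _ hy => JS_mul_left h hx hy, fun _ hx _ hy => JS_mul_right h hx hy⟩

variable {M : StarSubalgebra ℂ A} {V : Submodule ℂ A}

lemma RId.pow_sub (hV : RId M V) {x y : A} (hx : x ∈ M) (hy : y ∈ M) (h : x - y ∈ V) (n : ℕ) :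
    x ^ n - y ^ n ∈ V := by
  induction n with
  | zero => simp
  | succ n ih =>
    have h1 : x ^ (n + 1) - y ^ (n + 1) = x ^ n * (x - y) + (x ^ n - y ^ n) * y := by
      rw [pow_succ, pow_succ]
      noncomm_ring
    rw [h1]
    exact V.add_mem (hV.left _ (pow_mem hx n) _ h) (hV.right _ hy _ ih)

lemma RId.exp_sub (hV : RId M V) {x y : A} (hx : x ∈ M) (hy : y ∈ M) (h : x - y ∈ V) :
    NormedSpace.exp x - NormedSpace.exp y ∈ V := by
  have h1 : HasSum (fun n : ℕ => ((n.factorial : ℂ)⁻¹) • x ^ n - ((n.factorial : ℂ)⁻¹) • y ^ n)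
      (NormedSpace.exp x - NormedSpace.exp y) :=
    (NormedSpace.exp_series_hasSum_exp' (𝕂 := ℂ) x).sub
      (NormedSpace.exp_series_hasSum_exp' (𝕂 := ℂ) y)
  refine hV.closed.mem_of_tendsto h1 (Eventually.of_forall fun s => ?_)
  refine V.sum_mem fun n _ => ?_
  rw [← smul_sub]
  exact V.smul_mem _ (hV.pow_sub hx hy h n)

lemma exp_mem (hM : IsClosed (M : Set A)) {x : A} (hx : x ∈ M) : NormedSpace.exp x ∈ M := by
  have h1 := NormedSpace.exp_series_hasSum_exp' (𝕂 := ℂ) x
  refine hM.mem_of_tendsto h1 (Eventually.of_forall fun s => ?_)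
  exact sum_mem fun n _ => M.smul_mem (pow_mem hx n) _

/-- the exponential of a multiple of an idempotent -/
lemma exp_smul_idem {p : A} (hp : p * p = p) {c : ℂ} (hc : Complex.exp c = 1) :
    NormedSpace.exp (c • p) = 1 := by
  have h1 := NormedSpace.exp_series_hasSum_exp' (𝕂 := ℂ) (c • p)
  have h2 : HasSum (fun n : ℕ => ((n.factorial : ℂ)⁻¹) • c ^ n) (Complex.exp c) := by
    have := NormedSpace.exp_series_hasSum_exp' (𝕂 := ℂ) c
    rwa [← Complex.exp_eq_exp_ℂ] at this
  have h3 : HasSum (fun n : ℕ => (((n.factorial : ℂ)⁻¹) • c ^ n) • p) (Complex.exp c • p) :=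
    h2.smul_const p
  have h4 : HasSum (fun n : ℕ => if n = 0 then (1 - p : A) else 0) (1 - p) := by
    have := hasSum_ite_eq (0 : ℕ) (1 - p)
    simpa using this
  have h5 := h3.add h4
  have h6 : (fun n : ℕ => (((n.factorial : ℂ)⁻¹) • c ^ n) • p + if n = 0 then (1 - p : A) else 0)
      = fun n : ℕ => ((n.factorial : ℂ)⁻¹) • (c • p) ^ n := by
    ext n
    rcases n with _ | n
    · simp
    · have h7 : p ^ (n + 1) = p := by
        induction n with
        | zero => simp
        | succ n ih => rw [pow_succ, ih, hp]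
      rw [if_neg (by omega), add_zero, smul_pow, h7, smul_assoc]
  rw [h6] at h5
  rw [h1.unique h5, hc, one_smul]
  abel

end

end Pool.Agent.W660.WvN
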