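import Pool.Agent.W660.WvN.Comp
import Pool.Agent.Helper757.GL.Quot

/-!
The unilateral shift is not a compact perturbation of an invertible operator, even after adding an
identity summand; lifting of unitaries close to the image of the shift.
-/

set_option autoImplicit false

noncomputable section

open Filter Topology
open scoped ENNReal InnerProductSpace
open Pool.Agent.Helper757.GL (CI Q mk mkHom)

namespace Pool.Agent.W660.WvN

section

variable {E : Type} [NormedAddCommGroup E] [InnerProductSpace ℂ E]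

/-- an operator on the first coordinate plus the identity on the others -/
def EE (X : E →L[ℂ] E) : BK E := 1 + (io 0).comp ((X - 1).comp (pr 0))

lemma EE_mul (X Y : E →L[ℂ] E) : EE X * EE Y = EE (X * Y) := by
  have h1 : ∀ (F G : E →L[ℂ] E), ((io 0).comp (F.comp (pr 0)) : BK E) * (io 0).comp (G.comp (pr 0))
      = (io 0).comp ((F * G).comp (pr 0)) := by
    intro F G
    ext x : 1
    show (io 0 (F ((io 0 (G (x 0)) : KK E) 0)) : KK E) = io 0 (F (G (x 0)))
    rw [io_apply, if_pos rfl]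
  unfold EE
  rw [mul_add, add_mul, add_mul, h1]
  ext x i
  simp [mul_sub, sub_mul]
  abel

lemma EE_one : EE (1 : E →L[ℂ] E) = 1 := by
  unfold EE
  ext x i
  simp

lemma EE_apply_zero (X : E →L[ℂ] E) (x : KK E) : (EE X x) 0 = X (x 0) := by
  have h1 : EE X x = x + io 0 ((X - 1) (x 0)) := rfl
  rw [h1]
  show x 0 + (io 0 ((X - 1) (x 0)) : KK E) 0 = _
  rw [io_apply, if_pos rfl]
  simp

lemma EE_apply_ne (X : E →L[ℂ] E) (x : KK E) {i : ℕ} (hi : i ≠ 0) : (EE X x) i = x i := by
  have h1 : EE X x = x + io 0 ((X - 1) (x 0)) := rfl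
  rw [h1]
  show x i + (io 0 ((X - 1) (x 0)) : KK E) i = _
  rw [io_apply, if_neg hi, add_zero]

lemma EE_sub_compact {X Y : E →L[ℂ] E} (h : IsCompactOperator (X - Y)) :
    IsCompactOperator (EE X - EE Y : BK E) := by
  have h1 : (EE X - EE Y : BK E) = (io 0).comp ((X - Y).comp (pr 0)) := by
    unfold EE
    ext x i
    simp
  rw [h1]
  exact (h.comp_clm (pr 0)).clm_comp (io 0)

lemma EE_isUnit {X : E →L[ℂ] E} (h : IsUnit X) : IsUnit (EE X) := by
  obtain ⟨u, rfl⟩ := h
  refine ⟨⟨EE u, EE (↑u⁻¹ : E →L[ℂ] E), ?_, ?_⟩, rfl⟩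
  · rw [EE_mul, Units.mul_inv, EE_one]
  · rw [EE_mul, Units.inv_mul, EE_one]

/-- injective and not surjective operators are not compact perturbations of invertible ones -/
lemma not_pert {F : Type} [NormedAddCommGroup F] [InnerProductSpace ℂ F] [CompleteSpace F]
    {S W : F →L[ℂ] F} (hinj : Function.Injective S) (hsur : ¬ Function.Surjective S)
    (hW : IsUnit W) (hc : IsCompactOperator (S - W)) : False := by
  obtain ⟨u, rfl⟩ := hW
  set k : F →L[ℂ] F := (↑u⁻¹ : F →L[ℂ] F) * (S - u) with hk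
  have hkc : IsCompactOperator k := hc.clm_comp (↑u⁻¹ : F →L[ℂ] F)
  have h1 : (↑u⁻¹ : F →L[ℂ] F) * S = 1 + k := by
    rw [hk, mul_sub, Units.inv_mul]
    abel
  have h2 : S = u * (1 + k) := by
    rw [← h1, ← mul_assoc, Units.mul_inv, one_mul]
  rcases hkc.hasEigenvalue_or_mem_resolventSet (μ := (-1 : ℂ)) (by norm_num) with h | h
  · obtain ⟨v, hv⟩ := h.exists_hasEigenvector
    have h3 : k v = (-1 : ℂ) • v := hv.apply_eq_smul
    have h4 : S v = 0 := by
      rw [h2]
      show (u : F →L[ℂ] F) (v + k v) = 0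
      rw [h3]
      simp
    exact hv.2 (hinj (h4.trans (map_zero S).symm))
  · rw [spectrum.mem_resolventSet_iff] at h
    have h3 : IsUnit (1 + k) := by
      have h4 : (1 + k) = -((algebraMap ℂ (F →L[ℂ] F)) (-1) - k) := by
        rw [map_neg, map_one]
        abel
      rw [h4]
      exact h.neg
    have h5 : IsUnit S := by
      rw [h2]
      exact u.isUnit.mul h3
    obtain ⟨w, hw⟩ := h5
    refine hsur fun y => ⟨(↑w⁻¹ : F →L[ℂ] F) y, ?_⟩
    rw [← hw]
    have h6 : ((w : F →L[ℂ] F) * (↑w⁻¹ : F →L[ℂ] F)) y = y := by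
      rw [Units.mul_inv]
      rfl
    exact h6

end

section shift

/-- the base Hilbert space -/
abbrev H0 : Type := KK ℂ

/-- the bounded operators on it -/
abbrev B0 : Type := H0 →L[ℂ] H0

/-- the compact operators -/
abbrev K0 : Submodule ℂ B0 := compactOperator (RingHom.id ℂ) H0 H0

lemma K0_CI : CI K0 where
  closed := isClosed_setOfPred_isCompactOperator
  hl := fun a _ hx => hx.clm_comp a
  hr := fun a _ hx => hx.comp_clm a

/-- the Calkin algebra -/
abbrev Q0 : Type := Q K0_CI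

/-- the shift -/
def S0 : B0 := VV

lemma S0_inj : Function.Injective S0 := by
  intro x y h
  have h1 : ‖S0 (x - y)‖ = ‖x - y‖ := VV_norm _
  rw [map_sub, h, sub_self, norm_zero] at h1
  exact sub_eq_zero.1 (norm_eq_zero.1 h1.symm)

lemma S0_not_surj : ¬ Function.Surjective S0 := by
  intro h
  obtain ⟨x, hx⟩ := h (io 0 1)
  have h1 : (S0 x) 0 = 0 := VV_apply_zero x
  rw [hx, io_apply, if_pos rfl] at h1
  exact one_ne_zero h1

lemma EE_S0_contra {W : BK H0} (hW : IsUnit W) (hc : IsCompactOperator (EE S0 - W : BK H0)) :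
    False := by
  refine not_pert ?_ ?_ hW hc
  · intro x y h
    refine lp.ext (funext fun i => ?_)
    by_cases hi : i = 0
    · subst hi
      have h1 := congrArg (fun z : KK H0 => z 0) h
      simp only [EE_apply_zero] at h1
      exact S0_inj h1
    · have h1 := congrArg (fun z : KK H0 => z i) h
      simp only [EE_apply_ne _ _ hi] at h1
      exact h1
  · intro h
    refine S0_not_surj fun y => ?_
    obtain ⟨x, hx⟩ := h (io 0 y)
    refine ⟨x 0, ?_⟩
    rw [← EE_apply_zero, hx, io_apply, if_pos rfl]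

/-- the image of the shift -/
def U0 : Q0 := mk K0_CI S0

lemma U0_star_mul : star U0 * U0 = 1 := by
  unfold U0
  rw [← Pool.Agent.Helper757.GL.mk_star, ← Pool.Agent.Helper757.GL.mk_mul]
  have h : star S0 * S0 = 1 := VV_star_mul
  rw [h, Pool.Agent.Helper757.GL.mk_one]

lemma ee_compact (N : ℕ) : IsCompactOperator (ee N : B0) := by
  unfold ee
  refine compact_sum _ _ fun j _ => ?_
  have h1 : IsCompactOperator (io j : ℂ →L[ℂ] KK ℂ) :=
    isCompactOperator_of_locallyCompactSpace_rng _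
  exact h1.comp_clm (pr j)

lemma U0_mul_star : U0 * star U0 = 1 := by
  unfold U0
  rw [← Pool.Agent.Helper757.GL.mk_star, ← Pool.Agent.Helper757.GL.mk_mul,
    ← Pool.Agent.Helper757.GL.mk_one, Pool.Agent.Helper757.GL.mk_eq]
  have h : S0 * star S0 = 1 - ee 1 := VV_mul_star
  rw [h]
  have h2 : (1 - ee 1 - 1 : B0) = -ee 1 := by abel
  rw [h2]
  exact K0.neg_mem (ee_compact 1)

lemma U0_unitary : U0 ∈ unitary Q0 := by
  rw [Unitary.mem_iff]
  exact ⟨U0_star_mul, U0_mul_star⟩

instance : IsStarNormal U0 := ⟨by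
  show star U0 * U0 = U0 * star U0
  rw [U0_star_mul, U0_mul_star]⟩

/-- the spectrum of the image of the shift -/
abbrev X0 : Type := spectrum ℂ U0

lemma X0_norm (z : X0) : ‖(z : ℂ)‖ = 1 := by
  have h := spectrum.subset_circle_of_unitary U0_unitary z.2
  simpa using h

/-- the functional calculus -/
def Φ : C(X0, ℂ) →⋆ₐ[ℂ] Q0 := cfcHom (inferInstance : IsStarNormal U0)

lemma Φ_cont : Continuous Φ := cfcHom_continuous _

/-- the coordinate -/
def zz : C(X0, ℂ) := ⟨Subtype.val, continuous_subtype_val⟩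

lemma Φ_zz : Φ zz = U0 := cfcHom_id (inferInstance : IsStarNormal U0)

/-- lifting -/
lemma exists_D {X : B0} {w : C(X0, ℂ)} (hX : mk K0_CI X = Φ w) (hw : ∀ z, ‖w z‖ = 1)
    (hwz : ∀ z : X0, w z ≠ -z) : ∃ D : B0, IsUnit D ∧ IsCompactOperator (S0 - X * D) := by
  set d : C(X0, ℂ) := (1 / 2 : ℂ) • (1 - star zz * w) with hd
  have hd1 : ‖d‖ < 1 := by
    rw [ContinuousMap.norm_lt_iff _ zero_lt_one]
    intro z
    have h1 : d z = (1 / 2 : ℂ) * (1 - star (z : ℂ) * w z) := rfl
    set v : ℂ := star (z : ℂ) * w z with hv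
    have hv1 : ‖v‖ = 1 := by
      rw [hv, norm_mul, norm_star, X0_norm, hw, one_mul]
    have hv2 : v ≠ -1 := by
      intro h
      apply hwz z
      have h2 : (z : ℂ) * star (z : ℂ) = 1 := by
        have h3 := Complex.mul_conj (z : ℂ)
        rw [Complex.normSq_eq_norm_sq, X0_norm] at h3
        simpa using h3
      calc w z = ((z : ℂ) * star (z : ℂ)) * w z := by rw [h2, one_mul]
        _ = (z : ℂ) * v := by rw [hv, mul_assoc]
        _ = -z := by rw [h]; ring
    have h3 : ‖1 - v‖ < 2 := by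
      by_contra h4
      have h4' : 2 ≤ ‖1 - v‖ := not_lt.1 h4
      have h5 : ‖1 - v‖ ^ 2 = 1 - 2 * v.re + ‖v‖ ^ 2 := by
        rw [← Complex.normSq_eq_norm_sq, ← Complex.normSq_eq_norm_sq, Complex.normSq_apply,
          Complex.normSq_apply]
        simp
        ring
      have h6 : v.re ≤ -1 := by
        rw [hv1] at h5
        nlinarith
      have h7 : ‖v‖ ^ 2 = v.re ^ 2 + v.im ^ 2 := by
        rw [← Complex.normSq_eq_norm_sq, Complex.normSq_apply]
        ring
      rw [hv1] at h7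
      have h8 : v.im = 0 := by nlinarith
      have h9 : v.re = -1 := by nlinarith
      apply hv2
      apply Complex.ext
      · simpa using h9
      · simpa using h8
    rw [h1, norm_mul]
    have h10 : ‖(1 / 2 : ℂ)‖ = 1 / 2 := by norm_num
    rw [h10]
    linarith
  have hd2 : ‖Φ d‖ < 1 := by
    have h1 : ‖Φ d‖ = ‖d‖ := norm_cfcHom U0 d (inferInstance : IsStarNormal U0)
    rw [h1]
    exact hd1
  obtain ⟨a, ha1, ha2⟩ := Pool.Agent.Helper757.GL.exists_rep K0_CI (Φ d)
    (ε := 1 - ‖Φ d‖) (by linarith)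
  have ha3 : ‖a‖ < 1 := by linarith
  obtain ⟨c, hc⟩ : ∃ c : B0ˣ, (c : B0) = 1 - a := ⟨Units.oneSub a ha3, rfl⟩
  have hmc : mk K0_CI (c : B0) = Φ (1 - d) := by
    rw [hc, Pool.Agent.Helper757.GL.mk_sub, Pool.Agent.Helper757.GL.mk_one, ha1, map_sub, map_one]
  have hcs : IsUnit (star (c : B0)) := c.isUnit.star
  refine ⟨star (c : B0) * (↑c⁻¹ : B0), hcs.mul (Units.isUnit _), ?_⟩
  have h1 : IsCompactOperator (S0 * c - X * star (c : B0) : B0) := by
    show S0 * c - X * star (c : B0) ∈ K0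
    rw [← Pool.Agent.Helper757.GL.mk_eq K0_CI, Pool.Agent.Helper757.GL.mk_mul,
      Pool.Agent.Helper757.GL.mk_mul, Pool.Agent.Helper757.GL.mk_star, hmc, hX]
    have h2 : mk K0_CI S0 = Φ zz := Φ_zz.symm
    rw [h2, ← map_star, ← map_mul, ← map_mul]
    congr 1
    ext z
    have h3 : (z : ℂ) * star (z : ℂ) = 1 := by
      have h3 := Complex.mul_conj (z : ℂ)
      rw [Complex.normSq_eq_norm_sq, X0_norm] at h3
      simpa using h3
    have h4 : w z * star (w z) = 1 := by
      have h3 := Complex.mul_conj (w z)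
      rw [Complex.normSq_eq_norm_sq, hw] at h3
      simpa using h3
    have h5 : (zz * (1 - d)) z = (z : ℂ) * (1 - (1 / 2 : ℂ) * (1 - star (z : ℂ) * w z)) := rfl
    have h6 : (w * star (1 - d)) z
        = w z * star (1 - (1 / 2 : ℂ) * (1 - star (z : ℂ) * w z)) := rfl
    rw [h5, h6]
    simp only [star_sub, star_mul', star_one, star_star]
    have h7 : star (1 / 2 : ℂ) = 1 / 2 := by
      have := Complex.conj_ofReal (1 / 2)
      simpa using this
    rw [h7]
    linear_combination (1 / 2 : ℂ) * w z * h3 - (1 / 2 : ℂ) * z * h4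
  have h2 : (S0 - X * (star (c : B0) * (↑c⁻¹ : B0)) : B0)
      = (S0 * c - X * star (c : B0)) * (↑c⁻¹ : B0) := by
    rw [sub_mul, mul_assoc S0, Units.mul_inv, mul_one, mul_assoc X]
  rw [h2]
  exact h1.comp_clm (↑c⁻¹ : B0)

/-- the index obstruction -/
theorem index_contra {X : B0} {w : C(X0, ℂ)} (hX : mk K0_CI X = Φ w) (hw : ∀ z, ‖w z‖ = 1)
    (hwz : ∀ z : X0, w z ≠ -z) {W : BK H0} (hW : IsUnit W)
    (hc : IsCompactOperator (EE X - W : BK H0)) : False := by
  obtain ⟨D, hD, hDc⟩ := exists_D hX hw hwz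
  refine EE_S0_contra (hW.mul (EE_isUnit hD)) ?_
  have h1 : (EE S0 - W * EE D : BK H0) = (EE S0 - EE (X * D)) + (EE X - W) * EE D := by
    rw [← EE_mul]
    noncomm_ring
  rw [h1]
  exact (EE_sub_compact hDc).add (hc.comp_clm (EE D))

end shift

end Pool.Agent.W660.WvN
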