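import Mathlib

/-!
Operators on `lp (fun _ : ℕ => E) 2`: coordinates, diagonal operators and the shift.
-/

set_option autoImplicit false

noncomputable section

open Filter Topology
open scoped ENNReal InnerProductSpace

namespace Pool.Agent.W660.WvN

section

variable {E : Type} [NormedAddCommGroup E] [InnerProductSpace ℂ E] [CompleteSpace E]

/-- the square summable sequences -/
abbrev KK (E : Type) [NormedAddCommGroup E] [InnerProductSpace ℂ E] : Type :=
  lp (fun _ : ℕ => E) 2

omit [CompleteSpace E] in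
lemma norm_sq_KK (x : KK E) : ‖x‖ ^ 2 = ∑' i, ‖x i‖ ^ 2 := by
  have h := lp.norm_rpow_eq_tsum (p := 2) (by norm_num) x
  have h2 : (2 : ℝ≥0∞).toReal = ((2 : ℕ) : ℝ) := by norm_num
  rw [h2] at h
  simpa only [Real.rpow_natCast] using h

omit [CompleteSpace E] [InnerProductSpace ℂ E] in
lemma memℓp_two (f : ℕ → E) : Memℓp f 2 ↔ Summable fun i => ‖f i‖ ^ 2 := by
  rw [memℓp_gen_iff (by norm_num)]
  have h2 : (2 : ℝ≥0∞).toReal = ((2 : ℕ) : ℝ) := by norm_num
  rw [h2]
  simp only [Real.rpow_natCast]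

omit [CompleteSpace E] in
lemma summable_KK (x : KK E) : Summable fun i => ‖x i‖ ^ 2 := (memℓp_two _).1 (lp.memℓp x)

/-- embedding of a coordinate -/
def io (i : ℕ) : E →L[ℂ] KK E := lp.singleContinuousLinearMap ℂ (fun _ : ℕ => E) 2 i

omit [CompleteSpace E] in
lemma io_apply (i j : ℕ) (v : E) : (io i v : KK E) j = if j = i then v else 0 := by
  show (lp.single 2 i v : KK E) j = _
  by_cases h : j = i
  · subst h
    rw [if_pos rfl, lp.single_apply_self]
  · rw [if_neg h, lp.single_apply_ne _ _ _ h]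

/-- coordinate -/
def pr (i : ℕ) : KK E →L[ℂ] E :=
  LinearMap.mkContinuous
    { toFun := fun x => x i
      map_add' := fun x y => by simp
      map_smul' := fun c x => by simp } 1 (fun x => by
        rw [one_mul]
        exact lp.norm_apply_le_norm (by norm_num) x i)

omit [CompleteSpace E] in
lemma pr_apply (i : ℕ) (x : KK E) : pr i x = x i := rfl

omit [CompleteSpace E] in
lemma pr_io (i j : ℕ) : (pr i).comp (io j) = if i = j then (1 : E →L[ℂ] E) else 0 := by
  ext v
  show (io j v : KK E) i = _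
  rw [io_apply]
  split_ifs <;> rfl

lemma pr_adjoint (i : ℕ) : ContinuousLinearMap.adjoint (io i : E →L[ℂ] KK E) = pr i := by
  symm
  rw [ContinuousLinearMap.eq_adjoint_iff]
  intro x v
  rw [pr_apply]
  exact (lp.inner_single_right (𝕜 := ℂ) (G := fun _ : ℕ => E) i v x).symm

lemma io_adjoint (i : ℕ) : ContinuousLinearMap.adjoint (pr i : KK E →L[ℂ] E) = io i := by
  rw [← pr_adjoint, ContinuousLinearMap.adjoint_adjoint]

/-- the projection onto the first coordinates -/
def ee (N : ℕ) : KK E →L[ℂ] KK E := ∑ j ∈ Finset.range N, (io j).comp (pr j)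

omit [CompleteSpace E] in
lemma ee_apply (N : ℕ) (x : KK E) (i : ℕ) : (ee N x) i = if i < N then x i else 0 := by
  have h : (ee N x) i = ∑ j ∈ Finset.range N, (io j (x j) : KK E) i := by
    have h1 : ee N x = ∑ j ∈ Finset.range N, (io j (x j) : KK E) := by
      rw [ee, sum_apply]
      rfl
    rw [h1]
    have h2 := map_sum (pr (E := E) i) (fun j => (io j (x j) : KK E)) (Finset.range N)
    exact h2
  rw [h]
  simp only [io_apply]
  rw [Finset.sum_ite_eq]
  simp only [Finset.mem_range]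

omit [CompleteSpace E] in
lemma norm_sub_ee (N : ℕ) (x : KK E) : ‖x - ee N x‖ ^ 2 = ∑' i, ‖x (i + N)‖ ^ 2 := by
  rw [norm_sq_KK]
  have hs : Summable fun i => ‖(x - ee N x) i‖ ^ 2 := summable_KK _
  rw [← hs.sum_add_tsum_nat_add N]
  have h1 : ∀ i, (x - ee N x) i = if i < N then 0 else x i := by
    intro i
    show x i - (ee N x) i = _
    rw [ee_apply]
    split_ifs <;> simp
  rw [Finset.sum_eq_zero, zero_add]
  · congr 1
    ext i
    rw [h1, if_neg (by omega)]
  · intro i hi
    rw [h1, if_pos (Finset.mem_range.1 hi)]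
    simp

omit [CompleteSpace E] in
lemma ee_mul (N M : ℕ) : ee N * ee M = (ee (min N M) : KK E →L[ℂ] KK E) := by
  ext x i
  show (ee N (ee M x)) i = _
  rw [ee_apply, ee_apply, ee_apply]
  by_cases h1 : i < N <;> by_cases h2 : i < M <;> simp [h1, h2]

omit [CompleteSpace E] in
lemma ee_succ (N : ℕ) : (ee (N + 1) : KK E →L[ℂ] KK E) = ee N + (io N).comp (pr N) := by
  rw [ee, Finset.sum_range_succ, ← ee]

lemma iopr_star (j : ℕ) : star ((io j).comp (pr j) : KK E →L[ℂ] KK E) = (io j).comp (pr j) := by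
  rw [ContinuousLinearMap.star_eq_adjoint, ContinuousLinearMap.adjoint_comp, pr_adjoint,
    io_adjoint]

lemma ee_star (N : ℕ) : star (ee N : KK E →L[ℂ] KK E) = ee N := by
  unfold ee
  rw [star_sum]
  exact Finset.sum_congr rfl fun j _ => iopr_star j

omit [CompleteSpace E] in
lemma one_sub_ee_apply (N : ℕ) (x : KK E) : (1 - ee N : KK E →L[ℂ] KK E) x = x - ee N x := rfl

omit [CompleteSpace E] in
lemma norm_one_sub_ee (N : ℕ) : ‖(1 - ee N : KK E →L[ℂ] KK E)‖ ≤ 1 := by
  refine ContinuousLinearMap.opNorm_le_bound _ zero_le_one fun x => ?_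
  rw [one_mul, one_sub_ee_apply]
  have h1 : ‖x - ee N x‖ ^ 2 ≤ ‖x‖ ^ 2 := by
    have h2 := (summable_KK x).sum_add_tsum_nat_add N
    have h3 : 0 ≤ ∑ i ∈ Finset.range N, ‖x i‖ ^ 2 := Finset.sum_nonneg fun i _ => by positivity
    have h4 := norm_sub_ee N x
    have h5 := norm_sq_KK x
    linarith
  exact (sq_le_sq₀ (norm_nonneg _) (norm_nonneg _)).1 h1

omit [CompleteSpace E] in
lemma dg_summable (a : ℕ → E →L[ℂ] E) (C : ℝ) (hC : 0 ≤ C) (h : ∀ i, ‖a i‖ ≤ C) (x : KK E) :
    Summable fun i => ‖a i (x i)‖ ^ 2 := by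
  refine Summable.of_nonneg_of_le (fun i => by positivity) (fun i => ?_)
    ((summable_KK x).mul_left (C ^ 2))
  rw [← mul_pow]
  gcongr
  exact (a i).le_of_opNorm_le (h i) _

/-- the diagonal operator of a bounded sequence of operators -/
def dg (a : ℕ → E →L[ℂ] E) (C : ℝ) (hC : 0 ≤ C) (h : ∀ i, ‖a i‖ ≤ C) : KK E →L[ℂ] KK E :=
  LinearMap.mkContinuous
    { toFun := fun x => (⟨fun i => a i (x i), (memℓp_two _).2 (dg_summable a C hC h x)⟩ : KK E)
      map_add' := fun x y => by
        ext i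
        show a i (x i + y i) = _
        rw [map_add]; rfl
      map_smul' := fun c x => by
        ext i
        show a i (c • x i) = _
        rw [map_smul]; rfl } C (fun x => by
          have h1 : ‖(⟨fun i => a i (x i), (memℓp_two _).2 (dg_summable a C hC h x)⟩ : KK E)‖ ^ 2
              ≤ (C * ‖x‖) ^ 2 := by
            rw [norm_sq_KK, mul_pow, norm_sq_KK x, ← tsum_mul_left]
            refine Summable.tsum_le_tsum (fun i => ?_) (summable_KK _)
              ((summable_KK x).mul_left (C ^ 2))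
            rw [← mul_pow]
            show ‖a i (x i)‖ ^ 2 ≤ _
            gcongr
            exact (a i).le_of_opNorm_le (h i) _
          exact (sq_le_sq₀ (norm_nonneg _) (by positivity)).1 h1)

omit [CompleteSpace E] in
lemma dg_apply (a : ℕ → E →L[ℂ] E) (C : ℝ) (hC : 0 ≤ C) (h : ∀ i, ‖a i‖ ≤ C) (x : KK E) (i : ℕ) :
    (dg a C hC h x) i = a i (x i) := rfl

lemma dg_star (a : ℕ → E →L[ℂ] E) (C : ℝ) (hC : 0 ≤ C) (h : ∀ i, ‖a i‖ ≤ C)
    (ha : ∀ i, IsSelfAdjoint (a i)) : IsSelfAdjoint (dg a C hC h) := by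
  rw [ContinuousLinearMap.isSelfAdjoint_iff_isSymmetric]
  intro x y
  show ⟪dg a C hC h x, y⟫_ℂ = ⟪x, dg a C hC h y⟫_ℂ
  rw [lp.inner_eq_tsum, lp.inner_eq_tsum]
  congr 1
  ext i
  rw [dg_apply, dg_apply]
  exact (ContinuousLinearMap.isSelfAdjoint_iff_isSymmetric.1 (ha i)) _ _

/-- the sequence shifted to the right -/
def shf (x : ℕ → E) : ℕ → E := fun i => if i = 0 then 0 else x (i - 1)

omit [InnerProductSpace ℂ E] [CompleteSpace E] in
lemma shf_summable (x : ℕ → E) (h : Summable fun i => ‖x i‖ ^ 2) :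
    Summable fun i => ‖shf x i‖ ^ 2 := by
  rw [← summable_nat_add_iff 1]
  simpa [shf] using h

/-- the unilateral shift -/
def VV : KK E →L[ℂ] KK E :=
  LinearMap.mkContinuous
    { toFun := fun x => (⟨shf x, (memℓp_two _).2 (shf_summable _ (summable_KK x))⟩ : KK E)
      map_add' := fun x y => by
        ext i
        show shf (fun i => x i + y i) i = shf x i + shf y i
        unfold shf
        split_ifs <;> simp
      map_smul' := fun c x => by
        ext i
        show shf (fun i => c • x i) i = c • shf x i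
        unfold shf
        split_ifs <;> simp } 1 (fun x => by
          have h1 : ‖(⟨shf x, (memℓp_two _).2 (shf_summable _ (summable_KK x))⟩ : KK E)‖ ^ 2
              ≤ (1 * ‖x‖) ^ 2 := by
            rw [norm_sq_KK, one_mul, norm_sq_KK x]
            have h2 := (shf_summable _ (summable_KK x)).sum_add_tsum_nat_add 1
            have h3 : ∑' i, ‖shf (x : ℕ → E) i‖ ^ 2 = ∑' i, ‖x i‖ ^ 2 := by
              rw [← h2]
              simp [shf]
            exact h3.le
          exact (sq_le_sq₀ (norm_nonneg _) (by positivity)).1 h1)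

omit [CompleteSpace E] in
lemma VV_apply_zero (x : KK E) : (VV x) 0 = 0 := rfl

omit [CompleteSpace E] in
lemma VV_apply_succ (x : KK E) (i : ℕ) : (VV x) (i + 1) = x i := rfl

omit [CompleteSpace E] in
lemma VV_norm (x : KK E) : ‖VV x‖ = ‖x‖ := by
  have h1 : ‖VV x‖ ^ 2 = ‖x‖ ^ 2 := by
    rw [norm_sq_KK, norm_sq_KK x, ← (summable_KK (VV x)).sum_add_tsum_nat_add 1]
    simp [VV_apply_zero, VV_apply_succ]
  exact (sq_eq_sq₀ (norm_nonneg _) (norm_nonneg _)).1 h1

lemma VVs_apply (x : KK E) (i : ℕ) : ((star VV : KK E →L[ℂ] KK E) x) i = x (i + 1) := by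
  apply ext_inner_left ℂ
  intro v
  have h1 : ⟪(io i v : KK E), (star VV : KK E →L[ℂ] KK E) x⟫_ℂ
      = ⟪v, ((star VV : KK E →L[ℂ] KK E) x) i⟫_ℂ :=
    lp.inner_single_left (𝕜 := ℂ) (G := fun _ : ℕ => E) i v _
  rw [← h1]
  have h2 : ⟪(io i v : KK E), (star VV : KK E →L[ℂ] KK E) x⟫_ℂ = ⟪VV (io i v : KK E), x⟫_ℂ :=
    ContinuousLinearMap.adjoint_inner_right (VV : KK E →L[ℂ] KK E) (io i v) x
  rw [h2]
  have h3 : VV (io i v : KK E) = io (i + 1) v := by
    ext j
    rcases j with _ | j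
    · rw [VV_apply_zero, io_apply, if_neg (by omega)]
    · rw [VV_apply_succ, io_apply, io_apply]
      simp
  rw [h3]
  exact lp.inner_single_left (𝕜 := ℂ) (G := fun _ : ℕ => E) (i + 1) v _

lemma VV_star_mul : (star VV : KK E →L[ℂ] KK E) * VV = 1 := by
  ext x i
  show ((star VV : KK E →L[ℂ] KK E) (VV x)) i = x i
  rw [VVs_apply, VV_apply_succ]

lemma VV_mul_star : (VV : KK E →L[ℂ] KK E) * (star VV : KK E →L[ℂ] KK E) = 1 - ee 1 := by
  ext x i
  show (VV ((star VV : KK E →L[ℂ] KK E) x)) i = x i - (ee 1 x) i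
  rcases i with _ | i
  · rw [VV_apply_zero, ee_apply]; simp
  · rw [VV_apply_succ, VVs_apply, ee_apply]; simp

end

end Pool.Agent.W660.WvN
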