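import Pool.Agent.W660.WvN.Tel

/-!
The multiplier algebra of the tensor product of the bounded operators with the compact operators
does not have real rank zero.
-/

set_option autoImplicit false

noncomputable section

open Filter Topology
open scoped ENNReal InnerProductSpace
open Pool.Agent.Helper757.GL (CI Q mk mkHom mk_add mk_sub mk_mul mk_one mk_smul mk_zero mk_star
  mk_eq mk_surj norm_mk_le)

namespace Pool.Agent.W660.WvN

/-- an operator in the first corner -/
def bl (Y : B0) : BK H0 := (io 0).comp (Y.comp (pr 0))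

lemma bl_apply (Y : B0) (x : KK H0) : bl Y x = io 0 (Y (x 0)) := rfl

lemma ent_bl (Y : B0) (i j : ℕ) : ent i j (bl Y) = if i = 0 ∧ j = 0 then Y else 0 := by
  ext v : 1
  show (io 0 (Y ((io j v : KK H0) 0)) : KK H0) i = _
  rw [io_apply, io_apply]
  by_cases hi : i = 0
  · by_cases hj : j = 0
    · rw [if_pos hi, if_pos hj.symm, if_pos ⟨hi, hj⟩]
    · rw [if_pos hi, if_neg (fun h => hj h.symm), if_neg (fun h => hj h.2), map_zero]
      rfl
  · rw [if_neg hi, if_neg (fun h => hi h.1)]
    rfl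

lemma bl_mem (Y : B0) : bl Y ∈ JS (fun N => (ee N : BK H0)) := by
  refine block_mem_JS ePS (N := 1) ?_ ?_
  · ext x : 1
    refine lp.ext (funext fun i => ?_)
    show (ee 1 (bl Y x)) i = (bl Y x) i
    rw [ee_apply, bl_apply, io_apply]
    split_ifs with h1 h2 <;> first | rfl | omega
  · ext x : 1
    show bl Y (ee 1 x) = bl Y x
    rw [bl_apply, bl_apply, ee_apply, if_pos (by norm_num)]

lemma mem_IS_iff (X : BK H0) : X ∈ IS H0 ↔ ∀ i j, th i j X = 0 := by
  have h : ∀ i j, (th i j X = 0 ↔ IsCompactOperator (ent i j X)) := by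
    intro i j
    rw [th_apply, ← mk_zero K0_CI, mk_eq, sub_zero]
    rfl
  rw [IS_mem]
  exact forall_congr' fun i => forall_congr' fun j => (h i j).symm

lemma TT_idem : TT * TT - TT ∈ JS (fun N => (ee N : BK H0)) ⊔ IS H0 := by
  obtain ⟨Y, hY⟩ := mk_surj K0_CI (Φ (vv 1))
  rw [Submodule.mem_sup]
  refine ⟨-bl Y, Submodule.neg_mem _ (bl_mem Y), TT * TT - TT + bl Y, ?_, by abel⟩
  rw [mem_IS_iff]
  intro i j
  have h1 : TT * TT = TT ^ (1 + 1) := (pow_two TT).symm
  have h2 : th i j (bl Y) = if i = 0 ∧ j = 0 then Φ (vv 1) else 0 := by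
    rw [th_apply, ent_bl]
    split_ifs
    · exact hY
    · exact mk_zero _
  rw [map_add, map_sub, h1, th_pow, th_TT, h2]
  unfold sg
  rw [map_sub]
  split_ifs
  · abel
  · rw [map_zero]; abel

/-- the main point -/
theorem no_approx (happ : ∀ ε : ℝ, 0 < ε → ∃ S ∈ MS (ePS (E := H0)), IsSelfAdjoint S ∧
    (spectrum ℂ S).Finite ∧ ‖TT - S‖ < ε) : False := by
  obtain ⟨u, hu, hu1, hu2⟩ := exists_W (A := BK H0) (MS_closed (ePS (E := H0)))
    (JS_RId (ePS (E := H0))) (IS_RId (E := H0))
    (fun x hx => JS_sub_MS (ePS (E := H0)) hx) TT_mem TT_idem exp_cc happ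
  obtain ⟨X, hX⟩ := mk_surj K0_CI (Φ wh)
  refine index_contra hX wh_norm wh_ne hu ?_
  have hE : EE X = 1 + bl (X - 1) := rfl
  refine compact_of_mem ?_ ?_
  · have h1 : EE X - u = bl (X - 1) - (u - 1) := by
      rw [hE]; abel
    rw [h1]
    exact Submodule.sub_mem _ (bl_mem _) hu1
  · have h1 : EE X - u = (EE X - NormedSpace.exp (cc • TT)) + (NormedSpace.exp (cc • TT) - u) := by
      abel
    rw [h1]
    refine Submodule.add_mem _ ?_ hu2
    rw [mem_IS_iff]
    intro i j
    have h2 : th i j (bl (X - 1)) = if i = 0 ∧ j = 0 then Φ (wh - 1) else 0 := by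
      rw [th_apply, ent_bl]
      split_ifs
      · rw [mk_sub, hX, mk_one, map_sub, map_one]
      · exact mk_zero _
    have h3 : wh - 1 = -Vh := by
      unfold wh
      abel
    rw [map_sub, th_exp, hE, map_add, th_one, h2, h3, map_sub]
    split_ifs <;> simp

end Pool.Agent.W660.WvN
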