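import Pool.Agent.W660.WvN.Elem

/-!
The self-adjoint operator and its exponential.
-/

set_option autoImplicit false

noncomputable section

open Filter Topology
open scoped ENNReal InnerProductSpace
open Pool.Agent.Helper757.GL (CI Q mk mkHom mk_add mk_sub mk_mul mk_one mk_smul mk_zero mk_star
  mk_eq mk_surj norm_mk_le)

namespace Pool.Agent.W660.WvN

/-! ### lifts -/

lemma exists_sa (φ : C(X0, ℂ)) (h : star φ = φ) :
    ∃ F : B0, IsSelfAdjoint F ∧ mk K0_CI F = Φ φ := by
  obtain ⟨F, hF⟩ := mk_surj K0_CI (Φ φ)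
  refine ⟨(1 / 2 : ℂ) • (F + star F), ?_, ?_⟩
  · show star _ = _
    rw [star_smul, star_add, star_star]
    have h7 : star (1 / 2 : ℂ) = 1 / 2 := by
      have := Complex.conj_ofReal (1 / 2)
      simpa using this
    rw [h7, add_comm]
  · rw [mk_smul, mk_add, mk_star, hF, ← map_star, h, ← two_smul ℂ (Φ φ), smul_smul]
    norm_num

/-- lift of the first function -/
def Fl : B0 := (exists_sa ff (rf_star _ _)).choose
/-- lift of the second function -/
def Gl : B0 := (exists_sa gg (rf_star _ _)).choose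
/-- lift of the third function -/
def Ll : B0 := (exists_sa ll (rf_star _ _)).choose

lemma Fl_sa : IsSelfAdjoint Fl := (exists_sa ff (rf_star _ _)).choose_spec.1
lemma Gl_sa : IsSelfAdjoint Gl := (exists_sa gg (rf_star _ _)).choose_spec.1
lemma Ll_sa : IsSelfAdjoint Ll := (exists_sa ll (rf_star _ _)).choose_spec.1
lemma Fl_mk : mk K0_CI Fl = Φ ff := (exists_sa ff (rf_star _ _)).choose_spec.2
lemma Gl_mk : mk K0_CI Gl = Φ gg := (exists_sa gg (rf_star _ _)).choose_spec.2
lemma Ll_mk : mk K0_CI Ll = Φ ll := (exists_sa ll (rf_star _ _)).choose_spec.2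

/-- diagonal operators -/
def aL (i : ℕ) : B0 := if Even i then Fl else 1 - Fl

/-- off diagonal operators -/
def bL (i : ℕ) : B0 := if Even i then Gl else Ll

lemma aL_sa (i : ℕ) : IsSelfAdjoint (aL i) := by
  unfold aL
  split_ifs
  · exact Fl_sa
  · exact (IsSelfAdjoint.one _).sub Fl_sa

lemma bL_sa (i : ℕ) : IsSelfAdjoint (bL i) := by
  unfold bL
  split_ifs
  · exact Gl_sa
  · exact Ll_sa

lemma aL_mk (i : ℕ) : mk K0_CI (aL i) = Φ (ah i) := by
  unfold aL ah
  split_ifs
  · exact Fl_mk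
  · rw [mk_sub, mk_one, Fl_mk, map_sub, map_one]

lemma bL_mk (i : ℕ) : mk K0_CI (bL i) = Φ (bh i) := by
  unfold bL bh
  split_ifs
  · exact Gl_mk
  · exact Ll_mk

/-- a common bound -/
def Cb : ℝ := ‖Fl‖ + ‖1 - Fl‖ + ‖Gl‖ + ‖Ll‖

lemma Cb_nonneg : 0 ≤ Cb := by unfold Cb; positivity

lemma aL_le (i : ℕ) : ‖aL i‖ ≤ Cb := by
  have h1 := norm_nonneg Fl
  have h2 := norm_nonneg (1 - Fl)
  have h3 := norm_nonneg Gl
  have h4 := norm_nonneg Ll
  unfold aL Cb
  split_ifs <;> linarith

lemma bL_le (i : ℕ) : ‖bL i‖ ≤ Cb := by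
  have h1 := norm_nonneg Fl
  have h2 := norm_nonneg (1 - Fl)
  have h3 := norm_nonneg Gl
  have h4 := norm_nonneg Ll
  unfold bL Cb
  split_ifs <;> linarith

/-- the diagonal part -/
def Da : BK H0 := dg aL Cb Cb_nonneg aL_le

/-- the weights of the off diagonal part -/
def Db : BK H0 := dg bL Cb Cb_nonneg bL_le

lemma Da_sa : IsSelfAdjoint Da := dg_star _ _ _ _ aL_sa
lemma Db_sa : IsSelfAdjoint Db := dg_star _ _ _ _ bL_sa

/-- the shift on the big space -/
def VB : BK H0 := VV

/-- the self-adjoint element -/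
def TT : BK H0 := Da + VB * Db + Db * star VB

lemma TT_sa : IsSelfAdjoint TT := by
  show star TT = TT
  unfold TT
  rw [star_add, star_add, star_mul, star_mul, star_star, Da_sa.star_eq, Db_sa.star_eq]
  abel

lemma TT_zero (x : KK H0) : (TT x) 0 = aL 0 (x 0) + bL 0 (x 1) := by
  have h1 : (TT x) 0 = (Da x) 0 + (VB (Db x)) 0 + (Db (star VB x)) 0 := rfl
  have h2 : (VB (Db x)) 0 = 0 := VV_apply_zero _
  have h3 : (Db (star VB x)) 0 = bL 0 ((star VB x) 0) := rfl
  have h4 : (star VB x) 0 = x 1 := VVs_apply x 0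
  have h5 : (Da x) 0 = aL 0 (x 0) := rfl
  rw [h1, h2, h3, h4, h5, add_zero]

lemma TT_succ (x : KK H0) (i : ℕ) :
    (TT x) (i + 1) = aL (i + 1) (x (i + 1)) + bL i (x i) + bL (i + 1) (x (i + 2)) := by
  have h1 : (TT x) (i + 1) = (Da x) (i + 1) + (VB (Db x)) (i + 1) + (Db (star VB x)) (i + 1) := rfl
  have h2 : (VB (Db x)) (i + 1) = (Db x) i := VV_apply_succ _ _
  have h3 : (Db (star VB x)) (i + 1) = bL (i + 1) ((star VB x) (i + 1)) := rfl
  have h4 : (star VB x) (i + 1) = x (i + 2) := VVs_apply x (i + 1)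
  have h5 : (Da x) (i + 1) = aL (i + 1) (x (i + 1)) := rfl
  have h6 : (Db x) i = bL i (x i) := rfl
  rw [h1, h2, h3, h4, h5, h6]

lemma dg_mem (a : ℕ → B0) (C : ℝ) (hC : 0 ≤ C) (h : ∀ i, ‖a i‖ ≤ C) :
    mm (fun N => (ee N : BK H0)) (dg a C hC h) := by
  intro N
  have h1 : dg a C hC h * ee N = ee N * dg a C hC h := by
    ext x : 1
    refine lp.ext (funext fun i => ?_)
    show (dg a C hC h (ee N x)) i = (ee N (dg a C hC h x)) i
    rw [dg_apply, ee_apply, ee_apply, dg_apply]
    split_ifs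
    · rfl
    · rw [map_zero]
  show tl _ (dg a C hC h * ee N)
  rw [h1]
  exact tl_ee_mul ePS N _

lemma Da_mem : Da ∈ MS (ePS (E := H0)) := by
  refine ⟨dg_mem _ _ _ _, ?_⟩
  rw [Da_sa.star_eq]
  exact dg_mem _ _ _ _

lemma Db_mem : Db ∈ MS (ePS (E := H0)) := by
  refine ⟨dg_mem _ _ _ _, ?_⟩
  rw [Db_sa.star_eq]
  exact dg_mem _ _ _ _

lemma VB_mem : VB ∈ MS (ePS (E := H0)) := by
  constructor
  · intro N
    have h1 : VB * ee N = ee (N + 1) * (VB * ee N) := by
      ext x : 1
      refine lp.ext (funext fun i => ?_)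
      show (VB (ee N x)) i = (ee (N + 1) (VB (ee N x))) i
      rw [ee_apply]
      split_ifs with h
      · rfl
      · rcases i with _ | i
        · exact VV_apply_zero _
        · have h2 : (VB (ee N x)) (i + 1) = (ee N x) i := VV_apply_succ _ _
          rw [h2, ee_apply, if_neg (by omega)]
    show tl _ (VB * ee N)
    rw [h1]
    exact tl_ee_mul ePS (N + 1) _
  · intro N
    have h1 : star VB * ee N = ee N * (star VB * ee N) := by
      ext x : 1
      refine lp.ext (funext fun i => ?_)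
      show (star VB (ee N x)) i = (ee N (star VB (ee N x))) i
      rw [ee_apply]
      split_ifs with h
      · rfl
      · have h2 : (star VB (ee N x)) i = (ee N x) (i + 1) := VVs_apply _ _
        rw [h2, ee_apply, if_neg (by omega)]
    show tl _ (star VB * ee N)
    rw [h1]
    exact tl_ee_mul ePS N _

lemma TT_mem : TT ∈ MS (ePS (E := H0)) :=
  add_mem (add_mem Da_mem (mul_mem VB_mem Db_mem)) (mul_mem Db_mem (star_mem VB_mem))

/-! ### entries in the quotient -/

/-- the quotient map as a continuous linear map -/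
def mkL : B0 →L[ℂ] Q0 :=
  LinearMap.mkContinuous (mkHom K0_CI).toLinearMap 1 (fun x => by
    rw [one_mul]
    exact norm_mk_le K0_CI x)

lemma mkL_apply (x : B0) : mkL x = mk K0_CI x := rfl

/-- the entries modulo compact operators -/
def th (i j : ℕ) : BK H0 →L[ℂ] Q0 := mkL.comp (ent i j)

lemma th_apply (i j : ℕ) (X : BK H0) : th i j X = mk K0_CI (ent i j X) := rfl

lemma th_one (i j : ℕ) : th i j (1 : BK H0) = if i = j then 1 else 0 := by
  rw [th_apply, ent_one]
  split_ifs
  · exact mk_one _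
  · exact mk_zero _

lemma th_TT_zero (j : ℕ) (X : BK H0) :
    th 0 j (TT * X) = Φ (ah 0) * th 0 j X + Φ (bh 0) * th 1 j X := by
  have h1 : ent 0 j (TT * X) = aL 0 * ent 0 j X + bL 0 * ent 1 j X := by
    ext v : 1
    show (TT (X (io j v))) 0 = aL 0 ((X (io j v)) 0) + bL 0 ((X (io j v)) 1)
    exact TT_zero _
  rw [th_apply, h1, mk_add, mk_mul, mk_mul, aL_mk, bL_mk]
  rfl

lemma th_TT_succ (i j : ℕ) (X : BK H0) :
    th (i + 1) j (TT * X) = Φ (ah (i + 1)) * th (i + 1) j X + Φ (bh i) * th i j X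
      + Φ (bh (i + 1)) * th (i + 2) j X := by
  have h1 : ent (i + 1) j (TT * X) = aL (i + 1) * ent (i + 1) j X + bL i * ent i j X
      + bL (i + 1) * ent (i + 2) j X := by
    ext v : 1
    show (TT (X (io j v))) (i + 1) = aL (i + 1) ((X (io j v)) (i + 1)) + bL i ((X (io j v)) i)
      + bL (i + 1) ((X (io j v)) (i + 2))
    exact TT_succ _ _
  rw [th_apply, h1, mk_add, mk_add, mk_mul, mk_mul, mk_mul, aL_mk, bL_mk, bL_mk]
  rfl

lemma th_TT (i j : ℕ) : th i j TT = Φ (ta i j) := by
  rcases i with _ | i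
  · have h := th_TT_zero j 1
    rw [mul_one, th_one, th_one] at h
    rw [h]
    unfold ta
    by_cases h0 : j = 0
    · subst h0
      simp
    by_cases h1 : j = 1
    · subst h1
      simp
    · have e1 : ¬ 0 = j := fun h => h0 h.symm
      have e2 : ¬ 1 = j := fun h => h1 h.symm
      simp [e1, e2, h1]
  · have h := th_TT_succ i j 1
    rw [mul_one, th_one, th_one, th_one] at h
    rw [h]
    unfold ta
    by_cases h1 : j = i + 1
    · subst h1
      simp
    by_cases h2 : j = i
    · subst h2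
      simp
    by_cases h3 : j = i + 2
    · subst h3
      simp
    · have e1 : ¬ i + 1 = j := fun h => h1 h.symm
      have e2 : ¬ i = j := fun h => h2 h.symm
      have e3 : ¬ i + 2 = j := fun h => h3 h.symm
      simp [e1, e2, e3, h3]

lemma th_pow (k i j : ℕ) : th i j (TT ^ (k + 1)) = Φ (sg k i j) := by
  induction k generalizing i j with
  | zero =>
    rw [zero_add, pow_one, th_TT]
    unfold sg vv
    simp
  | succ k ih =>
    rw [pow_succ']
    rcases i with _ | i
    · rw [th_TT_zero, ih, ih, ← map_mul, ← map_mul, ← map_add, row_zero]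
    · rw [th_TT_succ, ih, ih, ih, ← map_mul, ← map_mul, ← map_mul, ← map_add, ← map_add,
        row_succ]

/-! ### the exponential -/

/-- shifted corner functions -/
def vs (n : ℕ) : C(X0, ℂ) := if n = 0 then 0 else vv (n - 1)

lemma norm_ll : ‖ll‖ ≤ 1 := by
  rw [ContinuousMap.norm_le _ zero_le_one]
  intro z
  rw [ll_apply, Complex.norm_real, Real.norm_eq_abs, abs_of_nonneg (by positivity)]
  have h := X0_sq z
  have h1 : |(z : ℂ).re| ≤ 1 := by
    rw [abs_le]
    constructor <;> nlinarith [sq_nonneg (z : ℂ).im]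
  have h2 : max (-(z : ℂ).re) 0 ≤ 1 := max_le (by linarith [(abs_le.1 h1).1]) zero_le_one
  linarith

lemma norm_ff : ‖ff‖ ≤ 1 := by
  rw [ContinuousMap.norm_le _ zero_le_one]
  intro z
  have h := X0_sq z
  have h1 : |(z : ℂ).im| ≤ 1 := by
    rw [abs_le]
    constructor <;> nlinarith [sq_nonneg (z : ℂ).re]
  have h2 := abs_le.1 h1
  rw [ff_apply, Complex.norm_real, Real.norm_eq_abs, abs_of_nonneg (by linarith)]
  linarith

lemma norm_vv (k : ℕ) : ‖vv k‖ ≤ k := by
  induction k with
  | zero => simp [vv]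
  | succ k ih =>
    rw [vv]
    refine (norm_add_le _ _).trans ?_
    have h1 : ‖ll * ll‖ ≤ 1 * 1 := (norm_mul_le _ _).trans
      (mul_le_mul norm_ll norm_ll (norm_nonneg _) zero_le_one)
    have h2 : ‖ff * vv k‖ ≤ 1 * k := (norm_mul_le _ _).trans
      (mul_le_mul norm_ff ih (norm_nonneg _) zero_le_one)
    push_cast
    linarith

lemma norm_vs (n : ℕ) : ‖vs n‖ ≤ 2 ^ n := by
  unfold vs
  split_ifs with h
  · rw [norm_zero]; positivity
  · have h1 := norm_vv (n - 1)
    have h2 : ((n - 1 : ℕ) : ℝ) ≤ (n : ℝ) := by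
      exact_mod_cast Nat.sub_le n 1
    have h3 : (n : ℝ) ≤ 2 ^ n := by
      exact_mod_cast Nat.lt_two_pow_self.le
    linarith

/-- the constant -/
def cc : ℂ := 2 * Real.pi * Complex.I

lemma exp_cc : Complex.exp cc = 1 := Complex.exp_two_pi_mul_I

/-- coefficients of the exponential series -/
def co (n : ℕ) : ℂ := (n.factorial : ℂ)⁻¹ * cc ^ n

lemma summable_vs : Summable fun n => co n • vs n := by
  refine Summable.of_norm_bounded (g := fun n => (2 * ‖cc‖) ^ n / (n.factorial : ℝ))
    (Real.summable_pow_div_factorial _) fun n => ?_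
  rw [norm_smul, co, norm_mul, norm_inv, norm_pow, Complex.norm_natCast]
  have h1 := norm_vs n
  calc (n.factorial : ℝ)⁻¹ * ‖cc‖ ^ n * ‖vs n‖ ≤ (n.factorial : ℝ)⁻¹ * ‖cc‖ ^ n * 2 ^ n := by
        gcongr
    _ = (2 * ‖cc‖) ^ n / (n.factorial : ℝ) := by rw [mul_pow]; ring

/-- the sum of the corner functions -/
def Vh : C(X0, ℂ) := ∑' n, co n • vs n

lemma hasSum_Vh : HasSum (fun n => co n • vs n) Vh := summable_vs.hasSum

lemma hasSum_co (x : ℂ) : HasSum (fun n : ℕ => co n * x ^ n) (Complex.exp (cc * x)) := by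
  have h1 := NormedSpace.exp_series_hasSum_exp' (𝕂 := ℂ) (cc * x)
  rw [← Complex.exp_eq_exp_ℂ] at h1
  have h2 : (fun n : ℕ => co n * x ^ n) = fun n : ℕ => ((n.factorial : ℂ)⁻¹) • (cc * x) ^ n := by
    funext n
    rw [co, smul_eq_mul, mul_pow]
    ring
  rw [h2]
  exact h1

lemma hasSum_eval (z : X0) : HasSum (fun n => co n * vs n z) (Vh z) := by
  have h1 := (ContinuousMap.evalCLM ℂ z).hasSum hasSum_Vh
  exact h1

lemma vv_nonneg (z : X0) (h : 0 ≤ (z : ℂ).re) (k : ℕ) : vv k z = 0 := by
  have hl : ll z = 0 := by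
    rw [ll_apply, max_eq_right (by linarith)]
    simp
  induction k with
  | zero => rfl
  | succ k ih =>
    show ll z * ll z + ff z * vv k z = 0
    rw [ih, hl]
    simp

lemma vv_neg (z : X0) (h : (z : ℂ).re < 0) (k : ℕ) : vv k z = ff z - ff z ^ (k + 1) := by
  have hg : gg z = 0 := by
    rw [gg_apply, max_eq_right h.le]
    simp
  have hf : ff z * ff z + gg z * gg z + ll z * ll z = ff z := congrArg (fun φ : C(X0, ℂ) => φ z) fgl
  induction k with
  | zero =>
    show (0 : ℂ) = _
    ring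
  | succ k ih =>
    show ll z * ll z + ff z * vv k z = _
    rw [ih]
    rw [hg] at hf
    linear_combination hf

lemma Vh_nonneg (z : X0) (h : 0 ≤ (z : ℂ).re) : Vh z = 0 := by
  have h1 := hasSum_eval z
  have h2 : (fun n => co n * vs n z) = fun _ => 0 := by
    funext n
    unfold vs
    split_ifs
    · exact mul_zero _
    · rw [vv_nonneg z h, mul_zero]
  rw [h2] at h1
  exact h1.unique hasSum_zero

lemma Vh_neg (z : X0) (h : (z : ℂ).re < 0) : Vh z = 1 - Complex.exp (cc * ff z) := by
  have h1 := hasSum_eval z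
  have h3 : HasSum (fun n : ℕ => if n = 0 then (1 - ff z : ℂ) else 0) (1 - ff z) := by
    have := hasSum_ite_eq (0 : ℕ) (1 - ff z)
    simpa using this
  have h4 := (((hasSum_co 1).mul_right (ff z)).sub (hasSum_co (ff z))).add h3
  have h2 : (fun n => co n * vs n z) = fun n : ℕ => co n * 1 ^ n * ff z - co n * ff z ^ n
      + if n = 0 then (1 - ff z : ℂ) else 0 := by
    funext n
    rcases n with _ | n
    · have h5 : co 0 = 1 := by simp [co]
      have h6 : vs 0 z = 0 := rfl
      rw [h6, h5, if_pos rfl]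
      ring
    · have h6 : vs (n + 1) z = vv n z := rfl
      rw [h6, vv_neg z h, if_neg (by omega)]
      ring
  rw [h2] at h1
  rw [h1.unique h4, mul_one, exp_cc]
  ring

/-- the symbol of the corner of the exponential -/
def wh : C(X0, ℂ) := 1 - Vh

lemma wh_nonneg (z : X0) (h : 0 ≤ (z : ℂ).re) : wh z = 1 := by
  show 1 - Vh z = 1
  rw [Vh_nonneg z h, sub_zero]

lemma cc_ff (z : X0) : cc * ff z = ((Real.pi * (1 - (z : ℂ).im) : ℝ) : ℂ) * Complex.I := by
  rw [ff_apply, cc]
  push_cast
  ring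

lemma wh_neg (z : X0) (h : (z : ℂ).re < 0) :
    wh z = Complex.exp (((Real.pi * (1 - (z : ℂ).im) : ℝ) : ℂ) * Complex.I) := by
  show 1 - Vh z = _
  rw [Vh_neg z h, cc_ff]
  ring

lemma wh_norm (z : X0) : ‖wh z‖ = 1 := by
  rcases lt_or_ge (z : ℂ).re 0 with h | h
  · rw [wh_neg z h, Complex.norm_exp_ofReal_mul_I]
  · rw [wh_nonneg z h, norm_one]

lemma wh_ne (z : X0) : wh z ≠ -z := by
  intro hz
  rcases lt_or_ge (z : ℂ).re 0 with h | h
  · rw [wh_neg z h] at hz
    have hre := congrArg Complex.re hz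
    have him := congrArg Complex.im hz
    rw [Complex.exp_ofReal_mul_I_re] at hre
    rw [Complex.exp_ofReal_mul_I_im] at him
    have e1 : Real.pi * (1 - (z : ℂ).im) = Real.pi - Real.pi * (z : ℂ).im := by ring
    rw [e1, Real.cos_pi_sub] at hre
    rw [e1, Real.sin_pi_sub] at him
    simp only [Complex.neg_re, Complex.neg_im] at hre him
    have h1 := X0_sq z
    have h2 : |(z : ℂ).im| < 1 := by
      rw [abs_lt]
      constructor <;> nlinarith
    have h3 := abs_lt.1 h2
    rcases lt_trichotomy (z : ℂ).im 0 with h4 | h4 | h4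
    · have h5 : Real.sin (Real.pi * (z : ℂ).im) < 0 := by
        have h6 : 0 < Real.sin (Real.pi * (-(z : ℂ).im)) := by
          apply Real.sin_pos_of_pos_of_lt_pi
          · have := Real.pi_pos
            nlinarith
          · have := Real.pi_pos
            nlinarith
        rw [mul_neg, Real.sin_neg] at h6
        linarith
      linarith
    · rw [h4, mul_zero, Real.cos_zero] at hre
      linarith
    · have h5 : 0 < Real.sin (Real.pi * (z : ℂ).im) := by
        apply Real.sin_pos_of_pos_of_lt_pi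
        · have := Real.pi_pos
          nlinarith
        · have := Real.pi_pos
          nlinarith
      linarith
  · rw [wh_nonneg z h] at hz
    have hre := congrArg Complex.re hz
    simp only [Complex.one_re, Complex.neg_re] at hre
    linarith

lemma hasSum_sy (i j : ℕ) : HasSum (fun n => co n • (if n = 0 then (if i = j then 1 else 0)
    else sg (n - 1) i j : C(X0, ℂ)))
    ((if i = j then 1 else 0) - (if i = 0 ∧ j = 0 then Vh else 0)) := by
  have h1 : HasSum (fun n => co n • ta i j) (ta i j) := by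
    have h2 := (hasSum_co 1).smul_const (ta i j)
    rw [mul_one, exp_cc, one_smul] at h2
    simpa using h2
  have h3 : HasSum (fun n : ℕ => if n = 0 then ((if i = j then 1 else 0) - ta i j : C(X0, ℂ))
      else 0) ((if i = j then 1 else 0) - ta i j) := by
    have := hasSum_ite_eq (0 : ℕ) ((if i = j then 1 else 0) - ta i j : C(X0, ℂ))
    simpa using this
  have h4 : HasSum (fun n : ℕ => if i = 0 ∧ j = 0 then co n • vs n else 0)
      (if i = 0 ∧ j = 0 then Vh else 0) := by
    by_cases h : i = 0 ∧ j = 0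
    · simp only [if_pos h]
      exact hasSum_Vh
    · simp only [if_neg h]
      exact hasSum_zero
  have h5 := (h1.add h3).sub h4
  have h6 : ta i j + ((if i = j then 1 else 0) - ta i j) - (if i = 0 ∧ j = 0 then Vh else 0)
      = (if i = j then 1 else 0) - (if i = 0 ∧ j = 0 then Vh else 0) := by abel
  rw [h6] at h5
  have h7 : (fun n => co n • (if n = 0 then (if i = j then 1 else 0)
      else sg (n - 1) i j : C(X0, ℂ))) = fun n : ℕ => co n • ta i j
      + (if n = 0 then ((if i = j then 1 else 0) - ta i j : C(X0, ℂ)) else 0)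
      - (if i = 0 ∧ j = 0 then co n • vs n else 0) := by
    funext n
    rcases n with _ | n
    · have h8 : co 0 = 1 := by simp [co]
      have h9 : vs 0 = 0 := rfl
      simp only [if_true, h8, h9, one_smul, ite_self, sub_zero]
      abel
    · have h9 : vs (n + 1) = vv n := rfl
      simp only [Nat.add_eq_zero_iff, one_ne_zero, and_false, if_false, add_zero, h9,
        Nat.add_sub_cancel]
      unfold sg
      rw [smul_sub]
      congr 1
      split_ifs
      · rfl
      · exact smul_zero _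
  rw [h7]
  exact h5

lemma th_exp (i j : ℕ) : th i j (NormedSpace.exp (cc • TT))
    = Φ ((if i = j then 1 else 0) - (if i = 0 ∧ j = 0 then Vh else 0)) := by
  have h1 := (th i j).hasSum (NormedSpace.exp_series_hasSum_exp' (𝕂 := ℂ) (cc • TT))
  have h2 := (hasSum_sy i j).map (Φ : C(X0, ℂ) →⋆ₐ[ℂ] Q0) Φ_cont
  refine h1.unique ?_
  have h3 : ((fun n : ℕ => th i j (((n.factorial : ℂ)⁻¹) • (cc • TT) ^ n)) : ℕ → Q0)
      = Φ ∘ fun n => co n • (if n = 0 then (if i = j then 1 else 0)
        else sg (n - 1) i j : C(X0, ℂ)) := by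
    funext n
    show th i j (((n.factorial : ℂ)⁻¹) • (cc • TT) ^ n) = Φ (co n • _)
    rw [smul_pow, smul_smul, map_smul, map_smul, co]
    congr 1
    rcases n with _ | n
    · rw [pow_zero, th_one, if_pos rfl]
      split_ifs
      · rw [map_one]
      · rw [map_zero]
    · rw [th_pow, if_neg (by omega)]
      rfl
  rw [h3]
  exact h2

end Pool.Agent.W660.WvN
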